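import Pool.Agent.Helper68.L1PR.Gen

/-!
# l1 sparse phase retrieval: generic vectors and zero-diagonal matrices
-/

set_option autoImplicit false

namespace L1PR

open Set ComplexConjugate

/-- the quadratic form of a Hermitian matrix with zero diagonal, as a linear function of the real
part of one coordinate -/
theorem quad_split {n : ℕ} (Q : Fin n → Fin n → ℂ) (hd : ∀ i, Q i i = 0)
    (hh : ∀ i l, Q l i = conj (Q i l)) (z : Fin n → ℂ) (a : Fin n) :
    ∑ i, ∑ l, conj (z i) * z l * Q i l =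
      (2 * (((z a).re * (∑ l ∈ Finset.univ.erase a, Q a l * z l).re +
        (z a).im * (∑ l ∈ Finset.univ.erase a, Q a l * z l).im : ℝ) : ℂ)) +
      ∑ i ∈ Finset.univ.erase a, ∑ l ∈ Finset.univ.erase a, conj (z i) * z l * Q i l := by
  classical
  set G := ∑ l ∈ Finset.univ.erase a, Q a l * z l with hG
  have h1 : ∀ i, ∑ l, conj (z i) * z l * Q i l =
      conj (z i) * z a * Q i a + ∑ l ∈ Finset.univ.erase a, conj (z i) * z l * Q i l := fun i =>
    (Finset.add_sum_erase _ _ (Finset.mem_univ a)).symm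
  rw [Finset.sum_congr rfl fun i _ => h1 i, Finset.sum_add_distrib]
  rw [← Finset.add_sum_erase Finset.univ
    (fun i => ∑ l ∈ Finset.univ.erase a, conj (z i) * z l * Q i l) (Finset.mem_univ a)]
  rw [← Finset.add_sum_erase Finset.univ (fun i => conj (z i) * z a * Q i a) (Finset.mem_univ a)]
  have h2 : ∑ l ∈ Finset.univ.erase a, conj (z a) * z l * Q a l = conj (z a) * G := by
    rw [hG, Finset.mul_sum]
    exact Finset.sum_congr rfl fun l _ => by ring
  have h3 : ∑ i ∈ Finset.univ.erase a, conj (z i) * z a * Q i a = z a * conj G := by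
    rw [hG, map_sum, Finset.mul_sum]
    refine Finset.sum_congr rfl fun i _ => ?_
    rw [map_mul, hh a i]
    ring
  have h4 : conj (z a) * G + z a * conj G =
      (2 * (((z a).re * G.re + (z a).im * G.im : ℝ) : ℂ)) := by
    apply Complex.ext
    · simp
      ring
    · simp
      ring
  rw [h2, h3, hd a, mul_zero, zero_add, ← h4]
  ring

/-- One of the coordinates of a zero of the quadratic form is algebraic over the others. -/
theorem step {n : ℕ} (P : Set ℝ) (Q : Fin n → Fin n → ℂ) (hQ : ∀ i l, CC P (Q i l))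
    (hd : ∀ i, Q i i = 0) (hh : ∀ i l, Q l i = conj (Q i l)) {a b : Fin n} (hab : Q a b ≠ 0)
    (z : Fin n → ℂ) (g : Fin n × Bool → ℝ) (hg : ∀ i, z i = ⟨g (i, false), g (i, true)⟩)
    (hz : ∑ i, ∑ l, conj (z i) * z l * Q i l = 0) :
    ∃ e, g e ∈ cl (P ∪ g '' {e}ᶜ) := by
  classical
  have hne : a ≠ b := by
    rintro rfl
    exact hab (hd a)
  set G := ∑ l ∈ Finset.univ.erase a, Q a l * z l with hG
  have hcz : ∀ e : Fin n × Bool, ∀ l : Fin n, l ≠ e.1 → CC (P ∪ g '' {e}ᶜ) (z l) := by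
    intro e l hl
    rw [hg l]
    have h1 : ∀ c : Bool, (l, c) ∈ ({e}ᶜ : Set (Fin n × Bool)) := by
      intro c hc
      exact hl (congrArg Prod.fst (Set.mem_singleton_iff.1 hc))
    exact ⟨cl_self (Or.inr ⟨_, h1 false, rfl⟩), cl_self (Or.inr ⟨_, h1 true, rfl⟩)⟩
  have hQ' : ∀ (e : Fin n × Bool) (i l : Fin n), CC (P ∪ g '' {e}ᶜ) (Q i l) := fun e i l =>
    CC_mono subset_union_left (hQ i l)
  by_cases hG0 : G.re = 0
  · -- the coefficient vanishes
    have h1 : G = Q a b * z b + ∑ l ∈ (Finset.univ.erase a).erase b, Q a l * z l :=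
      (Finset.add_sum_erase _ _ (Finset.mem_erase.2 ⟨hne.symm, Finset.mem_univ b⟩)).symm
    set R := ∑ l ∈ (Finset.univ.erase a).erase b, Q a l * z l with hR
    have hRc : ∀ c : Bool, CC (P ∪ g '' {(b, c)}ᶜ) R := by
      intro c
      refine CC_sum _ _ fun l hl => CC_mul (hQ' _ _ _) (hcz _ l ?_)
      exact (Finset.mem_erase.1 hl).1
    have h2 : (z b).re * (Q a b).re + (-((Q a b).im * (z b).im) + R.re) = 0 := by
      rw [h1, Complex.add_re, Complex.mul_re] at hG0
      linarith
    by_cases h3 : (Q a b).re = 0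
    · have h4 : (Q a b).im ≠ 0 := by
        intro h5
        exact hab (Complex.ext h3 h5)
      refine ⟨(b, true), ?_⟩
      have h5 : (z b).im = g (b, true) := by rw [hg b]
      have h6 : g (b, true) * (-(Q a b).im) + R.re = 0 := by
        rw [h3, h5] at h2
        linarith
      exact cl_solve (cl_neg (hQ' _ a b).2) (hRc true).1 (neg_ne_zero.2 h4) h6
    · refine ⟨(b, false), ?_⟩
      have h5 : (z b).re = g (b, false) := by rw [hg b]
      have h6 : (z b).im ∈ cl (P ∪ g '' {(b, false)}ᶜ) := by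
        rw [hg b]
        refine cl_self (Or.inr ⟨(b, true), ?_, rfl⟩)
        simp
      rw [h5] at h2
      exact cl_solve (hQ' _ a b).1 (cl_add (cl_neg (cl_mul (hQ' _ a b).2 h6)) (hRc false).1) h3 h2
  · refine ⟨(a, false), ?_⟩
    have hGc : CC (P ∪ g '' {(a, false)}ᶜ) G := by
      refine CC_sum _ _ fun l hl => CC_mul (hQ' _ _ _) (hcz _ l ?_)
      exact (Finset.mem_erase.1 hl).1
    set Φ := ∑ i ∈ Finset.univ.erase a, ∑ l ∈ Finset.univ.erase a, conj (z i) * z l * Q i l with hΦ
    have hΦc : CC (P ∪ g '' {(a, false)}ᶜ) Φ := by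
      refine CC_sum _ _ fun i hi => CC_sum _ _ fun l hl => CC_mul (CC_mul (CC_conj (hcz _ i ?_))
        (hcz _ l ?_)) (hQ' _ _ _)
      · exact (Finset.mem_erase.1 hi).1
      · exact (Finset.mem_erase.1 hl).1
    have h1 : (z a).re = g (a, false) := by rw [hg a]
    have h2 : (z a).im ∈ cl (P ∪ g '' {(a, false)}ᶜ) := by
      rw [hg a]
      refine cl_self (Or.inr ⟨(a, true), ?_, rfl⟩)
      simp
    have h3 := congrArg Complex.re hz
    rw [quad_split Q hd hh z a, ← hG, ← hΦ] at h3
    have h4 : g (a, false) * (2 * G.re) + (2 * ((z a).im * G.im) + Φ.re) = 0 := by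
      rw [← h1]
      simp only [Complex.add_re, Complex.mul_re, Complex.ofReal_re, Complex.ofReal_im,
        Complex.zero_re, Complex.re_ofNat, Complex.im_ofNat] at h3
      linarith
    have h5 : (2 : ℝ) ∈ cl (P ∪ g '' {(a, false)}ᶜ) := by
      simpa using cl_rat (P ∪ g '' {(a, false)}ᶜ) 2
    exact cl_solve (cl_mul h5 hGc.1) (cl_add (cl_mul h5 (cl_mul h2 hGc.2)) hΦc.1)
      (mul_ne_zero two_ne_zero hG0) h4

/-- `M` generic vectors have a common zero-diagonal Hermitian matrix only if the entries of the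
matrix generate a field of transcendence degree at least `M`. -/
theorem count {n M : ℕ} (P : Set ℝ) (Q : Fin n → Fin n → ℂ) (hQ : ∀ i l, CC P (Q i l))
    (hd : ∀ i, Q i i = 0) (hh : ∀ i l, Q l i = conj (Q i l)) {a b : Fin n} (hab : Q a b ≠ 0)
    (g : Fin M × (Fin n × Bool) → ℝ) (hinj : Function.Injective g) (hg : MA.Indep (range g))
    (hz : ∀ j, ∑ i, ∑ l, conj (⟨g (j, (i, false)), g (j, (i, true))⟩ : ℂ) *
      ⟨g (j, (l, false)), g (j, (l, true))⟩ * Q i l = 0) :
    (M : ℕ∞) ≤ MA.eRk P := by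
  classical
  have h1 : ∀ j, ∃ e : Fin n × Bool, g (j, e) ∈ cl (P ∪ (fun e => g (j, e)) '' {e}ᶜ) := fun j =>
    step P Q hQ hd hh hab (fun i => ⟨g (j, (i, false)), g (j, (i, true))⟩) (fun e => g (j, e))
      (fun i => rfl) (hz j)
  choose e he using h1
  let T : Finset (Fin M × (Fin n × Bool)) := Finset.univ.image fun j => (j, e j)
  have hT : T.card = M := by
    rw [Finset.card_image_of_injective _ fun i j h => congrArg Prod.fst h]
    simp
  have h2 : range g ⊆ cl (P ∪ g '' (T : Set _)ᶜ) := by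
    rintro _ ⟨⟨j, d⟩, rfl⟩
    by_cases hjd : (j, d) ∈ T
    · obtain ⟨j', -, hj'⟩ := Finset.mem_image.1 hjd
      have e1 : j' = j := congrArg Prod.fst hj'
      have e2 : e j' = d := congrArg Prod.snd hj'
      subst e1
      subst e2
      refine cl_cl ?_ (he j')
      rintro x (hx | ⟨d, hd', rfl⟩)
      · exact cl_self (Or.inl hx)
      · refine cl_self (Or.inr ⟨(j', d), ?_, rfl⟩)
        intro hT'
        obtain ⟨j'', -, hj''⟩ := Finset.mem_image.1 (Finset.mem_coe.1 hT')
        have e1 : j'' = j' := congrArg Prod.fst hj''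
        have e2 : e j'' = d := congrArg Prod.snd hj''
        subst e1
        exact hd' (Set.mem_singleton_iff.2 e2.symm)
    · exact cl_self (Or.inr ⟨(j, d), hjd, rfl⟩)
  have h3 : MA.eRk (range g) ≤ MA.eRk P + (g '' (T : Set _)ᶜ).encard := by
    calc MA.eRk (range g) ≤ MA.eRk (cl (P ∪ g '' (T : Set _)ᶜ)) := MA.eRk_mono h2
      _ = MA.eRk (P ∪ g '' (T : Set _)ᶜ) := MA.eRk_closure_eq _
      _ ≤ _ := MA.eRk_union_le_eRk_add_encard _ _
  rw [hg.eRk_eq_encard] at h3
  have h4 : (range g).encard = (T : Set (Fin M × (Fin n × Bool))).encard +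
      ((T : Set (Fin M × (Fin n × Bool)))ᶜ).encard := by
    rw [← image_univ, hinj.encard_image, encard_add_encard_compl]
  rw [hinj.encard_image, h4, Set.encard_coe_eq_coe_finsetCard, hT] at h3
  have h5 : ((T : Set (Fin M × (Fin n × Bool)))ᶜ).encard ≠ ⊤ :=
    Set.encard_ne_top_iff.2 (Set.toFinite _)
  exact (ENat.add_le_add_iff_right h5).1 h3

end L1PR
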