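import Mathlib

/-!
# l1 sparse phase retrieval: definitions
-/

set_option autoImplicit false

namespace L1PR

/-- the inner product of `f` and `x` in `ℂ^n` -/
noncomputable def ip {n : ℕ} (f x : Fin n → ℂ) : ℂ := ∑ i, (starRingEnd ℂ) (f i) * x i

/-- the l1 norm on `ℂ^n` -/
noncomputable def l1 {n : ℕ} (x : Fin n → ℂ) : ℝ := ∑ i, ‖x i‖

/-- at most `k` coordinates of `x` are nonzero -/
def Sparse {n : ℕ} (k : ℕ) (x : Fin n → ℂ) : Prop := {i | x i ≠ 0}.ncard ≤ k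

/-- the family `F` spans `ℂ^n` -/
def IsFrame {n N : ℕ} (F : Fin N → (Fin n → ℂ)) : Prop := Submodule.span ℂ (Set.range F) = ⊤

/-- `x` has the same phaseless measurements as `x₀` -/
def Feas {n N : ℕ} (F : Fin N → (Fin n → ℂ)) (x₀ x : Fin n → ℂ) : Prop :=
  ∀ j, ‖ip (F j) x‖ = ‖ip (F j) x₀‖

/-- `x` is a minimiser of the l1 program of the signal `x₀` -/
def IsMinr {n N : ℕ} (F : Fin N → (Fin n → ℂ)) (x₀ x : Fin n → ℂ) : Prop :=
  Feas F x₀ x ∧ ∀ y, Feas F x₀ y → l1 x ≤ l1 y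

/-- `F` recovers `k`-sparse signals by l1 minimisation: for every `k`-sparse `x₀` the minimisers
are exactly the vectors `c x₀`, `|c| = 1`. -/
def Recovers {n N : ℕ} (F : Fin N → (Fin n → ℂ)) (k : ℕ) : Prop :=
  ∀ x₀ : Fin n → ℂ, Sparse k x₀ → ∀ x, IsMinr F x₀ x ↔ ∃ c : ℂ, ‖c‖ = 1 ∧ x = c • x₀

/-- the least number of vectors of a frame of `ℂ^n` which recovers `k`-sparse signals by l1
minimisation -/
noncomputable def N1 (n k : ℕ) : ℕ :=
  sInf {N | ∃ F : Fin N → (Fin n → ℂ), IsFrame F ∧ Recovers F k}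

end L1PR
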