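import Mathlib

/-!
# l1 sparse phase retrieval: four vectors do not separate two-sparse signals in three dimensions
-/

set_option autoImplicit false

namespace L1PR

open Set ComplexConjugate Complex

/-- injectivity on a coordinate plane -/
def PI (α β : Fin 4 → ℂ) : Prop :=
  ∀ x1 x2 y1 y2 : ℂ, (∀ j, normSq (α j * x1 + β j * x2) = normSq (α j * y1 + β j * y2)) →
    ∃ c : ℂ, ‖c‖ = 1 ∧ y1 = c * x1 ∧ y2 = c * x2

/-- injectivity on two coordinate planes with a common axis -/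
def NP (α β γ : Fin 4 → ℂ) : Prop :=
  ∀ x1 x2 y1 y3 : ℂ, (∀ j, normSq (α j * x1 + β j * x2) = normSq (α j * y1 + γ j * y3)) →
    x2 = 0 ∧ y3 = 0

theorem PI.symm {α β : Fin 4 → ℂ} (h : PI α β) : PI β α := by
  intro x1 x2 y1 y2 hj
  obtain ⟨c, hc, h1, h2⟩ := h x2 x1 y2 y1 fun j => by
    rw [add_comm, hj j, add_comm]
  exact ⟨c, hc, h2, h1⟩

theorem NP.symm {α β γ : Fin 4 → ℂ} (h : NP α β γ) : NP α γ β := by
  intro x1 x2 y1 y3 hj
  exact (h y1 y3 x1 x2 fun j => (hj j).symm).symm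

theorem normSq_form (α β x1 x2 : ℂ) : normSq (α * x1 + β * x2) =
    normSq α * normSq x1 + normSq β * normSq x2 + 2 * (α * conj β * (x1 * conj x2)).re := by
  rw [normSq_add, normSq_mul, normSq_mul, map_mul]
  congr 2
  congr 1
  ring

theorem normSq_pm {u v : ℂ} (h : (u * conj v).re = 0) : normSq (u + v) = normSq (u + -v) := by
  rw [normSq_add, normSq_add, normSq_neg, map_neg, mul_neg, neg_re, h]
  ring

/-- vectors with real interference on a coordinate plane -/
theorem PI.real {α β : Fin 4 → ℂ} (h : PI α β) {x1 x2 y1 y2 : ℂ}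
    (hj : ∀ j, ((α j * x1 + β j * x2) * conj (α j * y1 + β j * y2)).re = 0)
    (hx : x1 ≠ 0 ∨ x2 ≠ 0) : ∃ s : ℝ, y1 = (s : ℂ) * I * x1 ∧ y2 = (s : ℂ) * I * x2 := by
  obtain ⟨c, hc, h1, h2⟩ := h (x1 + y1) (x2 + y2) (x1 - y1) (x2 - y2) fun j => by
    have e1 : α j * (x1 + y1) + β j * (x2 + y2) =
      (α j * x1 + β j * x2) + (α j * y1 + β j * y2) := by ring
    have e2 : α j * (x1 - y1) + β j * (x2 - y2) =
      (α j * x1 + β j * x2) + -(α j * y1 + β j * y2) := by ring
    rw [e1, e2]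
    exact normSq_pm (hj j)
  have hcc : c.re * c.re + c.im * c.im = 1 := by
    rw [← normSq_apply, normSq_eq_norm_sq, hc, one_pow]
  have h5 : (1 + c) * y1 = (1 - c) * x1 := by linear_combination -h1
  have h5' : (1 + c) * y2 = (1 - c) * x2 := by linear_combination -h2
  have h6 : (1 + c) ≠ 0 := by
    intro h7
    have h9 : (1 : ℂ) - c = 2 := by linear_combination -h7
    rw [h7, zero_mul, h9] at h5 h5'
    have e1 := (mul_eq_zero.1 h5.symm).resolve_left two_ne_zero
    have e2 := (mul_eq_zero.1 h5'.symm).resolve_left two_ne_zero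
    rcases hx with hx | hx
    · exact hx e1
    · exact hx e2
  have h7 : normSq (1 + c) ≠ 0 := fun h8 => h6 (normSq_eq_zero.1 h8)
  have h8 : ((normSq (1 + c) : ℝ) : ℂ) ≠ 0 := ofReal_ne_zero.2 h7
  have h9 : conj (1 + c) * (1 - c) = ((-2 * c.im : ℝ) : ℂ) * I := by
    apply Complex.ext
    · simp only [mul_re, conj_re, conj_im, add_re, add_im, sub_re, sub_im, one_re, one_im,
        ofReal_re, ofReal_im, I_re, I_im]
      linarith
    · simp only [mul_im, conj_re, conj_im, add_re, add_im, sub_re, sub_im, one_re, one_im,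
        ofReal_re, ofReal_im, I_re, I_im]
      ring
  have h10 : ((normSq (1 + c) : ℝ) : ℂ) = conj (1 + c) * (1 + c) := by
    rw [mul_comm, mul_conj]
  have key : ∀ x y : ℂ, (1 + c) * y = (1 - c) * x →
      y = ((-2 * c.im / normSq (1 + c) : ℝ) : ℂ) * I * x := by
    intro x y hxy
    apply mul_left_cancel₀ h8
    calc ((normSq (1 + c) : ℝ) : ℂ) * y = conj (1 + c) * ((1 + c) * y) := by
          rw [h10, mul_assoc]
      _ = conj (1 + c) * (1 - c) * x := by rw [hxy, mul_assoc]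
      _ = ((normSq (1 + c) : ℝ) : ℂ) * (((-2 * c.im / normSq (1 + c) : ℝ) : ℂ) * I * x) := by
          rw [h9, ofReal_div]
          field_simp
  exact ⟨_, key _ _ h5, key _ _ h5'⟩

theorem PI.nonzero {α β : Fin 4 → ℂ} (h : PI α β) : ∃ j, α j ≠ 0 := by
  by_contra hcon
  push Not at hcon
  obtain ⟨c, hc, h1, -⟩ := h 1 0 0 0 fun j => by simp [hcon j]
  have h2 : c = 0 := by
    rw [mul_one] at h1
    exact h1.symm
  rw [h2, norm_zero] at hc
  exact zero_ne_one hc

/-- the four rank one matrices of a coordinate plane are independent -/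
theorem PI.inj {α β : Fin 4 → ℂ} (h : PI α β) {p q : ℝ} {z : ℂ}
    (hj : ∀ j, normSq (α j) * p + normSq (β j) * q + 2 * (α j * conj (β j) * z).re = 0) :
    p = 0 ∧ q = 0 ∧ z = 0 := by
  obtain ⟨j, hβ⟩ := h.symm.nonzero
  set a := α j with ha
  set b := β j with hb
  have hbb : conj b ≠ 0 := fun h0 => hβ ((map_eq_zero _).1 h0)
  have hnb : normSq b ≠ 0 := fun h0 => hβ (normSq_eq_zero.1 h0)
  have hnb' : ((normSq b : ℝ) : ℂ) ≠ 0 := ofReal_ne_zero.2 hnb
  set y1 : ℂ := (p : ℂ) / (2 * conj b) with hy1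
  set y2 : ℂ := conj ((z - y1 * conj (-a)) / b) with hy2
  have e11 : b * conj y1 = (p : ℂ) / 2 := by
    rw [hy1, map_div₀, map_mul, conj_conj, conj_ofReal, map_ofNat]
    field_simp
  have e12 : b * conj y2 + y1 * conj (-a) = z := by
    rw [hy2, conj_conj]
    field_simp
    ring
  have e22 : 2 * (-a * conj y2).re = q := by
    have h1 : -a * conj y2 = -((a * conj b * z) + (p : ℂ) / 2 * (normSq a : ℝ)) /
        (normSq b : ℝ) := by
      rw [hy2, conj_conj, hy1, map_neg, ← mul_conj, ← mul_conj]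
      field_simp
      ring
    have h2 := hj j
    rw [h1, div_ofReal_re, neg_re, add_re]
    have h3 : ((p : ℂ) / 2 * (normSq a : ℝ)).re = p / 2 * normSq a := by
      have : ((p : ℂ) / 2 * (normSq a : ℝ)) = ((p / 2 * normSq a : ℝ) : ℂ) := by push_cast; ring
      rw [this, ofReal_re]
    rw [h3]
    field_simp
    rw [← ha, ← hb] at h2
    linarith
  obtain ⟨s, h1, h2⟩ := h.real (x1 := b) (x2 := -a) (y1 := y1) (y2 := y2) (fun i => by
    have h3 := hj i
    have h4 : ((α i * b + β i * (-a)) * conj (α i * y1 + β i * y2)).re =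
        normSq (α i) * (b * conj y1).re + normSq (β i) * (-a * conj y2).re +
        (α i * conj (β i) * (b * conj y2 + y1 * conj (-a))).re := by
      simp only [normSq_apply, mul_re, mul_im, add_re, add_im, conj_re, conj_im, neg_re, neg_im,
        map_add, map_mul, map_neg]
      ring
    rw [h4, e12, e11]
    have h5 : ((p : ℂ) / 2).re = p / 2 := by
      have : ((p : ℂ) / 2) = ((p / 2 : ℝ) : ℂ) := by push_cast; ring
      rw [this, ofReal_re]
    have h6 : (-a * conj y2).re = q / 2 := by linarith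
    rw [h5, h6]
    linarith) (Or.inl hβ)
  have hp : p = 0 := by
    have h3 := congrArg Complex.re e11
    rw [h1] at h3
    have h5 : ((p : ℂ) / 2).re = p / 2 := by
      have : ((p : ℂ) / 2) = ((p / 2 : ℝ) : ℂ) := by push_cast; ring
      rw [this, ofReal_re]
    rw [h5] at h3
    simp only [mul_re, mul_im, conj_re, conj_im, ofReal_re, ofReal_im, I_re, I_im, map_mul] at h3
    linarith
  have hq : q = 0 := by
    rw [← e22, h2]
    simp only [mul_re, mul_im, conj_re, conj_im, ofReal_re, ofReal_im, I_re, I_im, map_mul,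
      neg_re, neg_im]
    ring
  refine ⟨hp, hq, ?_⟩
  rw [← e12, h1, h2]
  simp only [map_mul, conj_ofReal, conj_I, map_neg]
  ring

/-- the measurements of a Hermitian matrix -/
noncomputable def TT (α β : Fin 4 → ℂ) : (ℝ × ℝ × ℂ) →ₗ[ℝ] (Fin 4 → ℝ) where
  toFun H j := normSq (α j) * H.1 + normSq (β j) * H.2.1 + 2 * (α j * conj (β j) * H.2.2).re
  map_add' H K := by
    funext j
    simp only [Prod.fst_add, Prod.snd_add, Pi.add_apply, mul_add, add_re]
    ring
  map_smul' r H := by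
    funext j
    simp only [Prod.smul_fst, Prod.smul_snd, Pi.smul_apply, smul_eq_mul, RingHom.id_apply,
      real_smul]
    rw [show α j * conj (β j) * ((r : ℂ) * H.2.2) = (r : ℂ) * (α j * conj (β j) * H.2.2) by ring,
      re_ofReal_mul]
    ring

theorem TT_apply (α β : Fin 4 → ℂ) (p q : ℝ) (z : ℂ) (j : Fin 4) :
    TT α β (p, q, z) j = normSq (α j) * p + normSq (β j) * q + 2 * (α j * conj (β j) * z).re := rfl

/-- the inverse of the measurement map -/
theorem PI.inverse {α β : Fin 4 → ℂ} (h : PI α β) :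
    ∃ S : (Fin 4 → ℝ) →ₗ[ℝ] (ℝ × ℝ × ℂ), (∀ m, TT α β (S m) = m) ∧ ∀ H, S (TT α β H) = H := by
  have hinj : Function.Injective (TT α β) := by
    rw [injective_iff_map_eq_zero]
    rintro ⟨p, q, z⟩ h0
    obtain ⟨h1, h2, h3⟩ := h.inj (p := p) (q := q) (z := z) fun j => congrFun h0 j
    rw [h1, h2, h3]
    rfl
  have hfin : Module.finrank ℝ (ℝ × ℝ × ℂ) = Module.finrank ℝ (Fin 4 → ℝ) := by
    rw [Module.finrank_prod, Module.finrank_prod, Module.finrank_self, finrank_real_complex,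
      Module.finrank_fin_fun]
  have hsurj : Function.Surjective (TT α β) :=
    (LinearMap.injective_iff_surjective_of_finrank_eq_finrank hfin).1 hinj
  let e := LinearEquiv.ofBijective (TT α β) ⟨hinj, hsurj⟩
  refine ⟨e.symm.toLinearMap, fun m => e.apply_symm_apply m, fun H => e.symm_apply_apply H⟩

/-- positive semidefinite matrices with vanishing determinant -/
theorem rank_one {p q : ℝ} {z : ℂ} (hp : 0 ≤ p) (hq : 0 ≤ q) (h : p * q = normSq z) :
    ∃ x1 x2 : ℂ, normSq x1 = p ∧ normSq x2 = q ∧ x1 * conj x2 = z := by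
  rcases hq.eq_or_lt with h0 | h0
  · subst h0
    rw [mul_zero] at h
    have hz : z = 0 := normSq_eq_zero.1 h.symm
    refine ⟨(Real.sqrt p : ℂ), 0, ?_, by simp, by simp [hz]⟩
    rw [normSq_ofReal, Real.mul_self_sqrt hp]
  · have h1 : (Real.sqrt q : ℝ) ≠ 0 := (Real.sqrt_pos.2 h0).ne'
    have h2 : ((Real.sqrt q : ℝ) : ℂ) ≠ 0 := ofReal_ne_zero.2 h1
    refine ⟨z / (Real.sqrt q : ℝ), (Real.sqrt q : ℝ), ?_, ?_, ?_⟩
    · rw [normSq_div, normSq_ofReal, Real.mul_self_sqrt hq, ← h]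
      field_simp
    · rw [normSq_ofReal, Real.mul_self_sqrt hq]
    · rw [conj_ofReal]
      field_simp

/-- the matrix of a signal of the neighbouring plane is not degenerate -/
theorem det_ne {α β γ : Fin 4 → ℂ} (hn : NP α β γ) {p q : ℝ} {z ζ : ℂ}
    (hm : ∀ j, TT α β (p, q, z) j = normSq (α j * ζ + γ j)) : p * q - normSq z ≠ 0 := by
  intro h0
  have h1 : p * q = normSq z := by linarith
  by_cases hpq : 0 ≤ p ∧ 0 ≤ q
  · obtain ⟨x1, x2, e1, e2, e3⟩ := rank_one hpq.1 hpq.2 h1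
    have h2 := (hn x1 x2 ζ 1 fun j => by
      rw [normSq_form, e1, e2, e3, mul_one, ← hm j, TT_apply]).2
    exact one_ne_zero h2
  · have hneg : p ≤ 0 ∧ q ≤ 0 := by
      have h2 : 0 ≤ p * q := h1 ▸ normSq_nonneg z
      rw [not_and_or] at hpq
      rcases hpq with hp | hq
      · push Not at hp
        exact ⟨hp.le, by nlinarith⟩
      · push Not at hq
        exact ⟨by nlinarith, hq.le⟩
    obtain ⟨x1, x2, e1, e2, e3⟩ := rank_one (p := -p) (q := -q) (z := -z) (by linarith [hneg.1])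
      (by linarith [hneg.2]) (by rw [normSq_neg, ← h1]; ring)
    have h2 : ∀ j, normSq (α j * ζ + γ j) = 0 := by
      intro j
      have h3 := normSq_form (α j) (β j) x1 x2
      rw [e1, e2, e3] at h3
      have h4 := hm j
      rw [TT_apply] at h4
      have h5 := normSq_nonneg (α j * ζ + γ j)
      have h6 := normSq_nonneg (α j * x1 + β j * x2)
      rw [mul_neg (α j * conj (β j)) z, neg_re] at h3
      linarith
    have h3 := (hn 0 0 ζ 1 fun j => by
      rw [mul_one, h2 j]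
      simp).2
    exact one_ne_zero h3

/-- an isotropic vector -/
theorem det_le {α β z : ℂ} {p q : ℝ} (hα : α ≠ 0)
    (h : normSq α * p + normSq β * q + 2 * (α * conj β * z).re = 0) : p * q - normSq z ≤ 0 := by
  have h1 : 0 < normSq α := normSq_pos.2 hα
  have h2 : normSq α * (p * q - normSq z) + normSq (α * z + β * q) = 0 := by
    have h3 : normSq (α * z + β * q) = normSq α * normSq z + normSq β * q ^ 2 +
        2 * q * (α * conj β * z).re := by
      simp only [normSq_apply, mul_re, mul_im, add_re, add_im, conj_re, conj_im, ofReal_re,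
        ofReal_im]
      ring
    rw [h3]
    linear_combination q * h
  have h3 := normSq_nonneg (α * z + β * q)
  by_contra hcon
  push Not at hcon
  nlinarith [mul_pos h1 hcon]

/-- the measurements of the signals of the neighbouring plane -/
noncomputable def mm (α γ : Fin 4 → ℂ) (ζ : ℂ) : Fin 4 → ℝ := fun j => normSq (α j * ζ + γ j)

theorem mm_eq (α β γ : Fin 4 → ℂ) (ζ : ℂ) : mm α γ ζ = normSq ζ • TT α β (1, 0, 0) +
    TT α γ (0, 0, ζ) + fun j => normSq (γ j) := by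
  funext j
  have h1 := normSq_form (α j) (γ j) ζ 1
  rw [mul_one] at h1
  simp only [mm, Pi.add_apply, Pi.smul_apply, smul_eq_mul, TT_apply]
  rw [h1]
  simp
  ring

theorem continuous_mm (α γ : Fin 4 → ℂ) : Continuous (mm α γ) := by
  unfold mm
  exact continuous_pi fun j => continuous_normSq.comp (by fun_prop)

/-- the determinant is negative on the neighbouring plane -/
theorem det_neg {α β γ : Fin 4 → ℂ} (hn : NP α β γ)
    (S : (Fin 4 → ℝ) →ₗ[ℝ] (ℝ × ℝ × ℂ)) (hS : ∀ m, TT α β (S m) = m) (hα : ∃ j, α j ≠ 0) (ζ : ℂ) :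
    (S (mm α γ ζ)).1 * (S (mm α γ ζ)).2.1 - normSq (S (mm α γ ζ)).2.2 < 0 := by
  have hcS : Continuous S := LinearMap.continuous_of_finiteDimensional S
  have hc : Continuous fun ζ => S (mm α γ ζ) := hcS.comp (continuous_mm α γ)
  have hcD : Continuous fun ζ => (S (mm α γ ζ)).1 * (S (mm α γ ζ)).2.1 -
      normSq (S (mm α γ ζ)).2.2 := by
    refine ((continuous_fst.comp hc).mul (continuous_fst.comp (continuous_snd.comp hc))).sub
      (continuous_normSq.comp (continuous_snd.comp (continuous_snd.comp hc)))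
  have hne : ∀ ζ, (S (mm α γ ζ)).1 * (S (mm α γ ζ)).2.1 - normSq (S (mm α γ ζ)).2.2 ≠ 0 := by
    intro ζ
    refine det_ne hn (ζ := ζ) fun j => ?_
    rw [Prod.mk.eta, hS]
    rfl
  obtain ⟨j, hj⟩ := hα
  have h1 : (S (mm α γ (-γ j / α j))).1 * (S (mm α γ (-γ j / α j))).2.1 -
      normSq (S (mm α γ (-γ j / α j))).2.2 ≤ 0 := by
    refine det_le (α := α j) (β := β j) hj ?_
    rw [← TT_apply α β, Prod.mk.eta, hS]
    unfold mm
    have : α j * (-γ j / α j) + γ j = 0 := by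
      field_simp
      ring
    rw [this, map_zero]
  by_contra hcon
  push Not at hcon
  obtain ⟨ξ, hξ⟩ := mem_range_of_exists_le_of_exists_ge hcD ⟨_, h1⟩ ⟨ζ, hcon⟩
  exact hne ξ hξ

theorem cubic_pos {A : ℝ} (hA : 0 < A) (B C E : ℝ) :
    ∃ s : ℝ, 0 ≤ A * s ^ 3 + B * s ^ 2 + C * s + E := by
  set R : ℝ := 1 + (|B| + |C| + |E|) / A with hR
  have h0 : 0 ≤ (|B| + |C| + |E|) / A := by positivity
  have h1 : 1 ≤ R := by linarith
  have h2 : A * R = A + |B| + |C| + |E| := by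
    rw [hR]
    field_simp
    ring
  have h3 : 1 ≤ R ^ 2 := one_le_pow₀ h1
  have h4 : R ≤ R ^ 2 := by nlinarith
  refine ⟨R, ?_⟩
  have e1 : A * R ^ 3 = (A + |B| + |C| + |E|) * R ^ 2 := by rw [← h2]; ring
  have e2 : -(|B| * R ^ 2) ≤ B * R ^ 2 := by
    have := neg_abs_le B
    nlinarith [sq_nonneg R]
  have e3 : -(|C| * R ^ 2) ≤ C * R := by
    have h5 := neg_abs_le C
    have h6 := abs_nonneg C
    have h7 : |C| * R ≤ |C| * R ^ 2 := mul_le_mul_of_nonneg_left h4 h6
    have h8 : -(|C| * R) ≤ C * R := by nlinarith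
    linarith
  have e4 : -(|E| * R ^ 2) ≤ E := by
    have h5 := neg_abs_le E
    have h6 := abs_nonneg E
    nlinarith
  rw [e1]
  nlinarith

/-- the common tangent space of two neighbouring planes -/
theorem rel {α β γ : Fin 4 → ℂ} (h : PI α β) (hn : NP α β γ) :
    ∃ w : Fin 4 → ℝ, (∑ j, w j * normSq (α j) = 0) ∧ (∑ j, w j * normSq (β j) = 1) ∧
      (∑ j, (w j : ℂ) * (α j * conj (β j)) = 0) ∧ ∑ j, (w j : ℂ) * (α j * conj (γ j)) = 0 := by
  obtain ⟨S, hS1, hS2⟩ := h.inverse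
  let φ : (Fin 4 → ℝ) →ₗ[ℝ] ℝ := (LinearMap.fst ℝ ℝ ℂ) ∘ₗ (LinearMap.snd ℝ ℝ (ℝ × ℂ)) ∘ₗ S
  have hφ : ∀ m, φ m = (S m).2.1 := fun m => rfl
  set w : Fin 4 → ℝ := fun i => φ (fun j => if i = j then 1 else 0) with hw
  have hsum : ∀ m, (S m).2.1 = ∑ j, w j * m j := by
    intro m
    rw [← hφ, LinearMap.pi_apply_eq_sum_univ φ m]
    refine Finset.sum_congr rfl fun j _ => ?_
    rw [smul_eq_mul, mul_comm]
  have hre : ∀ (v : Fin 4 → ℂ) (z : ℂ), (∑ j, w j * (2 * (v j * z).re)) =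
      2 * ((∑ j, (w j : ℂ) * v j) * z).re := by
    intro v z
    rw [Finset.sum_mul, re_sum, Finset.mul_sum]
    refine Finset.sum_congr rfl fun j _ => ?_
    rw [mul_assoc, re_ofReal_mul]
    ring
  refine ⟨w, ?_, ?_, ?_, ?_⟩
  · have h1 := hsum (TT α β (1, 0, 0))
    rw [hS2] at h1
    simp only [TT_apply] at h1
    rw [show (0 : ℝ) = ∑ j, w j * (normSq (α j) * 1 + normSq (β j) * 0 +
      2 * (α j * conj (β j) * 0).re) from h1]
    refine Finset.sum_congr rfl fun j _ => ?_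
    simp
  · have h1 := hsum (TT α β (0, 1, 0))
    rw [hS2] at h1
    simp only [TT_apply] at h1
    rw [show (1 : ℝ) = ∑ j, w j * (normSq (α j) * 0 + normSq (β j) * 1 +
      2 * (α j * conj (β j) * 0).re) from h1]
    refine Finset.sum_congr rfl fun j _ => ?_
    simp
  · set κ := ∑ j, (w j : ℂ) * (α j * conj (β j)) with hκ
    have h1 := hsum (TT α β (0, 0, conj κ))
    rw [hS2] at h1
    simp only [TT_apply, mul_zero, zero_add] at h1
    rw [hre (fun j => α j * conj (β j)) (conj κ), ← hκ, mul_conj, ofReal_re] at h1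
    have h2 : normSq κ = 0 := by
      have : (0 : ℝ) = 2 * normSq κ := h1
      linarith
    exact normSq_eq_zero.1 h2
  · by_contra hκ0
    set κ := ∑ j, (w j : ℂ) * (α j * conj (γ j)) with hκ
    have hk : 0 < normSq κ := normSq_pos.2 hκ0
    set k := normSq κ with hkdef
    set b := S (TT α γ (0, 0, conj κ)) with hb
    set c := S (fun j => normSq (γ j)) with hc
    have hb2 : b.2.1 = 2 * k := by
      rw [hb, hsum]
      simp only [TT_apply, mul_zero, zero_add]
      rw [hre (fun j => α j * conj (γ j)) (conj κ), ← hκ, mul_conj, ofReal_re]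
    have hform : ∀ s : ℝ, S (mm α γ ((s : ℂ) * conj κ)) =
        (s ^ 2 * k) • (1, 0, 0) + s • b + c := by
      intro s
      rw [mm_eq α β γ, map_add, map_add, map_smul, hS2]
      have h1 : ((0 : ℝ), (0 : ℝ), (s : ℂ) * conj κ) = s • ((0 : ℝ), (0 : ℝ), conj κ) := by
        rw [Prod.smul_mk, Prod.smul_mk, smul_zero, real_smul]
      rw [h1, map_smul, map_smul, normSq_mul, normSq_ofReal, normSq_conj]
      rw [← sq]
    obtain ⟨s, hs⟩ := cubic_pos (A := 2 * k ^ 2) (by positivity)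
      (k * c.2.1 + 2 * k * b.1 - normSq b.2.2)
      (b.1 * c.2.1 + 2 * k * c.1 - 2 * (b.2.2 * conj c.2.2).re) (c.1 * c.2.1 - normSq c.2.2)
    have h1 := det_neg hn S hS1 h.nonzero ((s : ℂ) * conj κ)
    rw [hform s] at h1
    simp only [Prod.fst_add, Prod.snd_add, Prod.smul_fst, Prod.smul_snd, smul_eq_mul,
      mul_one, mul_zero, smul_zero, zero_add, hb2, real_smul] at h1
    rw [normSq_add, normSq_mul, normSq_ofReal] at h1
    have h2 : ((s : ℂ) * b.2.2 * conj c.2.2).re = s * (b.2.2 * conj c.2.2).re := by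
      rw [mul_assoc, re_ofReal_mul]
    rw [h2] at h1
    nlinarith

theorem PI.ne {α β : Fin 4 → ℂ} (h : PI α β) {j : Fin 4} (hα : α j = 0) : β j ≠ 0 := by
  intro hβ
  obtain ⟨S, hS1, -⟩ := h.inverse
  have h1 := congrFun (hS1 fun _ => 1) j
  rw [← Prod.mk.eta (p := S fun _ => 1), ← Prod.mk.eta (p := (S fun _ => 1).2), TT_apply, hα,
    hβ] at h1
  simp at h1

/-- all the coordinates of the vectors are nonzero -/
theorem all_ne {α β γ : Fin 4 → ℂ} (h12 : PI α β) (h13 : PI α γ) (hn : NP α β γ) (j₀ : Fin 4) :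
    α j₀ ≠ 0 := by
  intro hα0
  obtain ⟨S, hS1, hS2⟩ := h12.inverse
  obtain ⟨j₁, hj₁⟩ := h12.nonzero
  have hβ0 : 0 < normSq (β j₀) := normSq_pos.2 (h12.ne hα0)
  have hγ0 : 0 < normSq (γ j₀) := normSq_pos.2 (h13.ne hα0)
  set κ : ℝ := normSq (γ j₀) / normSq (β j₀) with hκ
  have hκ0 : 0 < κ := div_pos hγ0 hβ0
  have hval : ∀ m : Fin 4 → ℝ, normSq (β j₀) * (S m).2.1 = m j₀ := by
    intro m
    have h1 := congrFun (hS1 m) j₀
    rw [← Prod.mk.eta (p := S m), ← Prod.mk.eta (p := (S m).2), TT_apply, hα0] at h1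
    simp only [map_zero, zero_mul, zero_re, mul_zero, zero_add, add_zero] at h1
    exact h1
  have hq : ∀ ζ, (S (mm α γ ζ)).2.1 = κ := by
    intro ζ
    have h1 := hval (mm α γ ζ)
    have h2 : mm α γ ζ j₀ = normSq (γ j₀) := by
      simp only [mm, hα0, zero_mul, zero_add]
    rw [h2] at h1
    rw [hκ, eq_div_iff hβ0.ne', mul_comm]
    exact h1
  let Lz : ℂ →ₗ[ℝ] ℂ := (LinearMap.snd ℝ ℝ ℂ) ∘ₗ (LinearMap.snd ℝ ℝ (ℝ × ℂ)) ∘ₗ S ∘ₗ (TT α γ) ∘ₗ
    (LinearMap.inr ℝ ℝ (ℝ × ℂ)) ∘ₗ (LinearMap.inr ℝ ℝ ℂ)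
  have hLz : ∀ ζ, Lz ζ = (S (TT α γ (0, 0, ζ))).2.2 := fun ζ => rfl
  have hinj : Function.Injective Lz := by
    rw [injective_iff_map_eq_zero]
    intro ζ hζ
    rw [hLz] at hζ
    have h1 := hval (TT α γ (0, 0, ζ))
    rw [TT_apply, hα0] at h1
    simp only [map_zero, zero_mul, zero_re, mul_zero, zero_add, add_zero] at h1
    have h2 : (S (TT α γ (0, 0, ζ))).2.1 = 0 := (mul_eq_zero.1 h1).resolve_left hβ0.ne'
    refine (h13.inj (p := -(S (TT α γ (0, 0, ζ))).1) (q := 0) (z := ζ) fun j => ?_).2.2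
    have h3 := congrFun (hS1 (TT α γ (0, 0, ζ))) j
    rw [← Prod.mk.eta (p := S (TT α γ (0, 0, ζ))), ← Prod.mk.eta (p := (S (TT α γ (0, 0, ζ))).2),
      h2, hζ, TT_apply, TT_apply] at h3
    simp only [mul_zero, zero_re, add_zero, zero_add] at h3
    rw [mul_zero, add_zero, ← h3]
    ring
  have hsurj : Function.Surjective Lz := LinearMap.injective_iff_surjective.1 hinj
  obtain ⟨ζ, hζ⟩ := hsurj (-((κ : ℂ) * β j₁ / α j₁) - (S fun j => normSq (γ j)).2.2)
  have hz : (S (mm α γ ζ)).2.2 = -((κ : ℂ) * β j₁ / α j₁) := by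
    rw [mm_eq α β γ, map_add, map_add, map_smul, hS2, Prod.snd_add, Prod.snd_add, Prod.snd_add,
      Prod.snd_add, ← hLz, hζ]
    simp
  have hneg := det_neg hn S hS1 ⟨j₁, hj₁⟩ ζ
  rw [hq, hz] at hneg
  have h1 := congrFun (hS1 (mm α γ ζ)) j₁
  rw [← Prod.mk.eta (p := S (mm α γ ζ)), ← Prod.mk.eta (p := (S (mm α γ ζ)).2), TT_apply, hq,
    hz] at h1
  have h2 : 0 ≤ mm α γ ζ j₁ := normSq_nonneg _
  have hna : 0 < normSq (α j₁) := normSq_pos.2 hj₁
  have h3 : (α j₁ * conj (β j₁) * -((κ : ℂ) * β j₁ / α j₁)).re = -(κ * normSq (β j₁)) := by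
    have : α j₁ * conj (β j₁) * -((κ : ℂ) * β j₁ / α j₁) =
        ((-(κ * normSq (β j₁)) : ℝ) : ℂ) := by
      push_cast
      rw [← mul_conj]
      field_simp
    rw [this, ofReal_re]
  rw [h3] at h1
  have h4 : normSq (-((κ : ℂ) * β j₁ / α j₁)) = κ ^ 2 * normSq (β j₁) / normSq (α j₁) := by
    rw [normSq_neg, normSq_div, normSq_mul, normSq_ofReal, sq]
  rw [h4] at hneg
  set p := (S (mm α γ ζ)).1
  have h5 : normSq (α j₁) * (p * κ - κ ^ 2 * normSq (β j₁) / normSq (α j₁)) =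
      κ * (normSq (α j₁) * p - κ * normSq (β j₁)) := by
    field_simp
  have h6 : 0 ≤ κ * (normSq (α j₁) * p - κ * normSq (β j₁)) := mul_nonneg hκ0.le (by linarith)
  have h7 : normSq (α j₁) * (p * κ - κ ^ 2 * normSq (β j₁) / normSq (α j₁)) < 0 :=
    mul_neg_of_pos_of_neg hna hneg
  linarith

theorem half {α β γ : Fin 4 → ℂ} (hn : NP α β γ) {j₀ : Fin 4} (hα : α j₀ ≠ 0) {n1 n2 n3 : ℂ}
    (h : ∀ j, j ≠ j₀ → α j * n1 + β j * n2 + γ j * n3 = 0) : n2 = 0 ∧ n3 = 0 := by
  set e := α j₀ * n1 + β j₀ * n2 + γ j₀ * n3 with he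
  set x1 := (e / 2 - β j₀ * n2) / α j₀ with hx1
  have h1 := hn x1 n2 (x1 - n1) (-n3) fun j => by
    by_cases hj : j = j₀
    · subst hj
      have e1 : α j * x1 + β j * n2 = e / 2 := by
        rw [hx1]
        field_simp
        ring
      have e2 : α j * (x1 - n1) + γ j * -n3 = -(e / 2) := by
        linear_combination e1 - he
      rw [e1, e2, normSq_neg]
    · have : α j * x1 + β j * n2 = α j * (x1 - n1) + γ j * -n3 := by
        linear_combination h j hj
      rw [this]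
  exact ⟨h1.1, neg_eq_zero.1 h1.2⟩

/-- every three of the four vectors are independent -/
theorem relation_ne {α β γ : Fin 4 → ℂ} (n1 : NP α β γ) (n2 : NP β α γ)
    (hα : ∀ j, α j ≠ 0) (hβ : ∀ j, β j ≠ 0) {c : Fin 4 → ℂ}
    (h1 : ∑ j, c j * conj (α j) = 0) (h2 : ∑ j, c j * conj (β j) = 0)
    (h3 : ∑ j, c j * conj (γ j) = 0) {j₀ : Fin 4} (h0 : c j₀ = 0) : c = 0 := by
  by_contra hc
  obtain ⟨j₁, hj₁⟩ := Function.ne_iff.1 hc
  have hne : j₁ ≠ j₀ := by
    rintro rfl
    exact hj₁ h0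
  have hcard : ∀ i j : Fin 4, i ≠ j → Fintype.card {l : Fin 4 // l ≠ i ∧ l ≠ j} = 2 := by decide
  let G : (Fin 3 → ℂ) →ₗ[ℂ] ({l : Fin 4 // l ≠ j₁ ∧ l ≠ j₀} → ℂ) :=
    { toFun := fun n l => α l * n 0 + β l * n 1 + γ l * n 2
      map_add' := by
        intro x y
        funext l
        simp only [Pi.add_apply]
        ring
      map_smul' := by
        intro r x
        funext l
        simp only [Pi.smul_apply, smul_eq_mul, RingHom.id_apply]
        ring }
  have hker : LinearMap.ker G ≠ ⊥ := by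
    refine LinearMap.ker_ne_bot_of_finrank_lt ?_
    rw [Module.finrank_fintype_fun_eq_card, hcard j₁ j₀ hne, Module.finrank_fin_fun]
    norm_num
  obtain ⟨n, hn, hn0⟩ := (Submodule.ne_bot_iff _).1 hker
  have hG : ∀ j, j ≠ j₁ → j ≠ j₀ → α j * n 0 + β j * n 1 + γ j * n 2 = 0 := fun j a b =>
    congrFun (LinearMap.mem_ker.1 hn) ⟨j, a, b⟩
  have hrel : ∑ j, conj (c j) * (α j * n 0 + β j * n 1 + γ j * n 2) = 0 := by
    have e : ∀ j, conj (c j) * (α j * n 0 + β j * n 1 + γ j * n 2) =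
        conj (c j * conj (α j)) * n 0 + conj (c j * conj (β j)) * n 1 +
          conj (c j * conj (γ j)) * n 2 := by
      intro j
      simp only [map_mul, conj_conj]
      ring
    rw [Finset.sum_congr rfl fun j _ => e j, Finset.sum_add_distrib, Finset.sum_add_distrib,
      ← Finset.sum_mul, ← Finset.sum_mul, ← Finset.sum_mul, ← map_sum, ← map_sum, ← map_sum, h1,
      h2, h3]
    simp
  have h4 : α j₁ * n 0 + β j₁ * n 1 + γ j₁ * n 2 = 0 := by
    rw [Finset.sum_eq_single j₁] at hrel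
    · refine (mul_eq_zero.1 hrel).resolve_left ?_
      intro h5
      exact hj₁ ((map_eq_zero _).1 h5)
    · intro j _ hj
      by_cases hj0 : j = j₀
      · rw [hj0, h0]
        simp
      · rw [hG j hj hj0, mul_zero]
    · intro h5
      exact absurd (Finset.mem_univ _) h5
  have h5 : ∀ j, j ≠ j₀ → α j * n 0 + β j * n 1 + γ j * n 2 = 0 := by
    intro j hj
    by_cases hj1 : j = j₁
    · rw [hj1]
      exact h4
    · exact hG j hj1 hj
  have h6 := half n1 (hα j₀) h5
  have h7 := half n2 (hβ j₀) (n1 := n 1) (n2 := n 0) (n3 := n 2) fun j hj => by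
    rw [← h5 j hj]
    ring
  apply hn0
  funext i
  fin_cases i
  · exact h7.1
  · exact h6.1
  · exact h6.2

/-- Four vectors do not separate the two-sparse signals of a three-dimensional space. -/
theorem no_four (α β γ : Fin 4 → ℂ) (h12 : PI α β) (h13 : PI α γ) (h23 : PI β γ)
    (n1 : NP α β γ) (n2 : NP β α γ) : False := by
  have hα := all_ne h12 h13 n1
  have hβ := all_ne h12.symm h23 n2
  obtain ⟨w, w1, w2, w3, w4⟩ := rel h12 n1
  obtain ⟨v, v1, v2, v3, v4⟩ := rel h12.symm n2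
  have cast : ∀ (u : Fin 4 → ℝ) (δ : Fin 4 → ℂ), ∑ j, u j * normSq (δ j) = 0 →
      ∑ j, (u j : ℂ) * δ j * conj (δ j) = 0 := by
    intro u δ h
    have e : ∀ j, (u j : ℂ) * δ j * conj (δ j) = ((u j * normSq (δ j) : ℝ) : ℂ) := by
      intro j
      rw [mul_assoc, mul_conj]
      push_cast
      ring
    rw [Finset.sum_congr rfl fun j _ => e j, ← ofReal_sum, h, ofReal_zero]
  -- the relation of the first axis
  have a1 : ∑ j, ((w j : ℂ) * α j) * conj (α j) = 0 := cast w α w1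
  have a2 : ∑ j, ((w j : ℂ) * α j) * conj (β j) = 0 := by
    rw [← w3]
    exact Finset.sum_congr rfl fun j _ => by ring
  have a3 : ∑ j, ((w j : ℂ) * α j) * conj (γ j) = 0 := by
    rw [← w4]
    exact Finset.sum_congr rfl fun j _ => by ring
  have b1 : ∑ j, ((v j : ℂ) * β j) * conj (α j) = 0 := by
    rw [← v3]
    exact Finset.sum_congr rfl fun j _ => by ring
  have b2 : ∑ j, ((v j : ℂ) * β j) * conj (β j) = 0 := cast v β v1
  have b3 : ∑ j, ((v j : ℂ) * β j) * conj (γ j) = 0 := by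
    rw [← v4]
    exact Finset.sum_congr rfl fun j _ => by ring
  have hw0 : ∀ j, w j ≠ 0 := by
    intro j hj
    have h1 := relation_ne n1 n2 hα hβ a1 a2 a3 (j₀ := j) (by rw [hj]; simp)
    have h2 : ∀ i, w i = 0 := by
      intro i
      have h3 := congrFun h1 i
      simp only [Pi.zero_apply] at h3
      exact ofReal_eq_zero.1 ((mul_eq_zero.1 h3).resolve_right (hα i))
    rw [Finset.sum_eq_zero fun i _ => by rw [h2 i, zero_mul]] at w2
    exact zero_ne_one w2
  have hv0 : v 0 ≠ 0 := by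
    intro hj
    have h1 := relation_ne n1 n2 hα hβ b1 b2 b3 (j₀ := 0) (by rw [hj]; simp)
    have h2 : ∀ i, v i = 0 := by
      intro i
      have h3 := congrFun h1 i
      simp only [Pi.zero_apply] at h3
      exact ofReal_eq_zero.1 ((mul_eq_zero.1 h3).resolve_right (hβ i))
    rw [Finset.sum_eq_zero fun i _ => by rw [h2 i, zero_mul]] at v2
    exact zero_ne_one v2
  have hv0' : (v 0 : ℂ) * β 0 ≠ 0 := mul_ne_zero (ofReal_ne_zero.2 hv0) (hβ 0)
  set τ : ℂ := (w 0 : ℂ) * α 0 / ((v 0 : ℂ) * β 0) with hτ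
  have hτ0 : τ ≠ 0 := div_ne_zero (mul_ne_zero (ofReal_ne_zero.2 (hw0 0)) (hα 0)) hv0'
  have hcomb : ∀ δ : Fin 4 → ℂ, ∑ j, ((w j : ℂ) * α j) * conj (δ j) = 0 →
      ∑ j, ((v j : ℂ) * β j) * conj (δ j) = 0 →
      ∑ j, ((w j : ℂ) * α j - τ * ((v j : ℂ) * β j)) * conj (δ j) = 0 := by
    intro δ e1 e2
    have e : ∀ j, ((w j : ℂ) * α j - τ * ((v j : ℂ) * β j)) * conj (δ j) =
        ((w j : ℂ) * α j) * conj (δ j) - τ * (((v j : ℂ) * β j) * conj (δ j)) := fun j => by ring
    rw [Finset.sum_congr rfl fun j _ => e j, Finset.sum_sub_distrib, ← Finset.mul_sum, e1, e2]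
    simp
  have h0 := relation_ne n1 n2 hα hβ (c := fun j => (w j : ℂ) * α j - τ * ((v j : ℂ) * β j))
    (hcomb α a1 b1) (hcomb β a2 b2) (hcomb γ a3 b3) (j₀ := 0) (by
      show (w 0 : ℂ) * α 0 - τ * ((v 0 : ℂ) * β 0) = 0
      rw [hτ, div_mul_cancel₀ _ hv0', sub_self])
  have hfin := h12.inj (p := 0) (q := 0) (z := conj τ * I) fun j => by
    have h1 : (w j : ℂ) * α j = τ * ((v j : ℂ) * β j) := by
      have := congrFun h0 j
      simp only [Pi.zero_apply] at this
      exact sub_eq_zero.1 this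
    have hwj : (w j : ℂ) ≠ 0 := ofReal_ne_zero.2 (hw0 j)
    have h2 : α j * conj (β j) * (conj τ * I) =
        ((v j / w j * normSq (β j) * normSq τ : ℝ) : ℂ) * I := by
      have h3 : α j = τ * ((v j : ℂ) * β j) / (w j : ℂ) := by
        rw [eq_div_iff hwj, mul_comm]
        exact h1
      rw [h3]
      push_cast
      rw [← mul_conj, ← mul_conj]
      field_simp
    rw [h2, re_ofReal_mul, I_re]
    ring
  have h4 := hfin.2.2
  have h5 : conj τ ≠ 0 := fun h => hτ0 ((map_eq_zero _).1 h)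
  exact (mul_ne_zero h5 I_ne_zero) h4

end L1PR
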