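import Pool.Agent.Helper68.L1PR.Lower
import Pool.Agent.Helper68.L1PR.Four

/-!
# l1 sparse phase retrieval: five vectors are necessary for two-sparse signals
-/

set_option autoImplicit false

namespace L1PR

open Set ComplexConjugate Complex

/-- a signal on two coordinates -/
noncomputable def vec {n : ℕ} (a b : Fin n) (x1 x2 : ℂ) : Fin n → ℂ := fun i =>
  if i = a then x1 else if i = b then x2 else 0

theorem vec_sparse {n : ℕ} (a b : Fin n) (x1 x2 : ℂ) : Sparse 2 (vec a b x1 x2) := by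
  unfold Sparse
  have h1 : {i | vec a b x1 x2 i ≠ 0} ⊆ ({a, b} : Set (Fin n)) := by
    intro i hi
    by_contra h
    rw [Set.mem_insert_iff, Set.mem_singleton_iff, not_or] at h
    apply hi
    simp only [vec, h.1, h.2, if_false]
  refine (Set.ncard_le_ncard h1 (Set.toFinite _)).trans ?_
  refine (Set.ncard_insert_le _ _).trans ?_
  rw [Set.ncard_singleton]

theorem ip_vec {n : ℕ} {a b : Fin n} (hab : a ≠ b) (f : Fin n → ℂ) (x1 x2 : ℂ) :
    ip f (vec a b x1 x2) = conj (f a) * x1 + conj (f b) * x2 := by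
  classical
  unfold ip
  have e : ∀ i, conj (f i) * vec a b x1 x2 i =
      (if i = a then conj (f a) * x1 else 0) + (if i = b then conj (f b) * x2 else 0) := by
    intro i
    unfold vec
    by_cases h1 : i = a
    · subst h1
      simp [hab]
    · by_cases h2 : i = b
      · subst h2
        simp [h1]
      · simp [h1, h2]
  rw [Finset.sum_congr rfl fun i _ => e i, Finset.sum_add_distrib, Finset.sum_ite_eq',
    Finset.sum_ite_eq']
  simp

/-- the coordinates of the vectors, completed by zeros -/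
noncomputable def co {n N : ℕ} (F : Fin N → (Fin n → ℂ)) (a : Fin n) : Fin 4 → ℂ := fun j =>
  if h : (j : ℕ) < N then conj (F ⟨j, h⟩ a) else 0

theorem feas_of {n N : ℕ} {F : Fin N → (Fin n → ℂ)} (hN : N ≤ 4) {a b c d : Fin n} (hab : a ≠ b)
    (hcd : c ≠ d) {x1 x2 y1 y2 : ℂ}
    (h : ∀ j, normSq (co F a j * x1 + co F b j * x2) = normSq (co F c j * y1 + co F d j * y2)) :
    Feas F (vec a b x1 x2) (vec c d y1 y2) := by
  intro j
  have h1 := h ⟨j, lt_of_lt_of_le j.2 hN⟩
  simp only [co, j.2, dif_pos] at h1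
  rw [← ip_vec hab, ← ip_vec hcd, normSq_eq_norm_sq, normSq_eq_norm_sq] at h1
  exact (sq_eq_sq₀ (norm_nonneg _) (norm_nonneg _)).1 h1.symm

theorem PI_of {n N : ℕ} {F : Fin N → (Fin n → ℂ)} (hN : N ≤ 4) (hR : Recovers F 2) {a b : Fin n}
    (hab : a ≠ b) : PI (co F a) (co F b) := by
  intro x1 x2 y1 y2 h
  obtain ⟨c, hc, hv⟩ := no_pair hR (vec_sparse a b x1 x2) (vec_sparse a b y1 y2)
    (feas_of hN hab hab h)
  refine ⟨c, hc, ?_, ?_⟩
  · have h1 := congrFun hv a
    simpa [vec] using h1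
  · have h1 := congrFun hv b
    simpa [vec, hab.symm] using h1

theorem NP_of {n N : ℕ} {F : Fin N → (Fin n → ℂ)} (hN : N ≤ 4) (hR : Recovers F 2)
    {a b c : Fin n} (hab : a ≠ b) (hac : a ≠ c) (hbc : b ≠ c) :
    NP (co F a) (co F b) (co F c) := by
  intro x1 x2 y1 y3 h
  obtain ⟨r, hr, hv⟩ := no_pair hR (vec_sparse a b x1 x2) (vec_sparse a c y1 y3)
    (feas_of hN hab hac h)
  have hr0 : r ≠ 0 := by
    intro h0
    rw [h0, norm_zero] at hr
    exact zero_ne_one hr
  constructor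
  · have h1 := congrFun hv b
    have h2 : (0 : ℂ) = r * x2 := by simpa [vec, hab.symm, hbc] using h1
    exact (mul_eq_zero.1 h2.symm).resolve_left hr0
  · have h1 := congrFun hv c
    simpa [vec, hac.symm, hbc.symm] using h1

/-- Five vectors are necessary for two-sparse signals in dimension at least three. -/
theorem lower_two {n N : ℕ} {F : Fin N → (Fin n → ℂ)} (hR : Recovers F 2) (hn : 3 ≤ n) :
    5 ≤ N := by
  by_contra hcon
  have hN : N ≤ 4 := by omega
  have hab : (⟨0, by omega⟩ : Fin n) ≠ ⟨1, by omega⟩ := by simp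
  have hac : (⟨0, by omega⟩ : Fin n) ≠ ⟨2, by omega⟩ := by simp
  have hbc : (⟨1, by omega⟩ : Fin n) ≠ ⟨2, by omega⟩ := by simp
  exact no_four _ _ _ (PI_of hN hR hab) (PI_of hN hR hac) (PI_of hN hR hbc)
    (NP_of hN hR hab hac hbc) (NP_of hN hR hab.symm hbc hac)

theorem mem_upper {n k : ℕ} (hk : 1 ≤ k) :
    ∃ N, ∃ F : Fin N → (Fin n → ℂ), IsFrame F ∧ Recovers F k := by
  rcases hk.eq_or_lt with h | h
  · subst h
    exact ⟨n, upper_one⟩
  · exact ⟨_, upper h⟩

theorem N1_mem {n k : ℕ} (hk : 1 ≤ k) :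
    ∃ F : Fin (N1 n k) → (Fin n → ℂ), IsFrame F ∧ Recovers F k :=
  Nat.sInf_mem (s := {N | ∃ F : Fin N → (Fin n → ℂ), IsFrame F ∧ Recovers F k}) (mem_upper hk)

theorem N1_le {n k N : ℕ} (h : ∃ F : Fin N → (Fin n → ℂ), IsFrame F ∧ Recovers F k) :
    N1 n k ≤ N := Nat.sInf_le h

end L1PR
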