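import Mathlib

/-!
# l1 sparse phase retrieval: the algebraic closure operator on the reals
-/

set_option autoImplicit false

namespace L1PR

open Set

/-- the matroid of algebraic independence of real numbers over the rationals -/
noncomputable abbrev MA : Matroid ℝ := AlgebraicIndependent.matroid ℚ ℝ

/-- the real numbers which are algebraic over the field generated by `X` -/
noncomputable abbrev cl (X : Set ℝ) : Set ℝ := MA.closure X

theorem mem_cl {X : Set ℝ} {a : ℝ} : a ∈ cl X ↔ IsAlgebraic (Algebra.adjoin ℚ X) a := by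
  unfold cl MA
  rw [AlgebraicIndependent.matroid_closure_eq]
  exact Iff.rfl

theorem cl_self {X : Set ℝ} {a : ℝ} (h : a ∈ X) : a ∈ cl X :=
  Matroid.mem_closure_of_mem' _ h (by simp)

theorem cl_mono {X Y : Set ℝ} (h : X ⊆ Y) : cl X ⊆ cl Y := Matroid.closure_subset_closure _ h

theorem cl_cl {X Y : Set ℝ} (h : X ⊆ cl Y) : cl X ⊆ cl Y :=
  Matroid.closure_subset_closure_of_subset_closure h

theorem cl_rat (X : Set ℝ) (q : ℚ) : (q : ℝ) ∈ cl X := by
  rw [mem_cl]
  exact isAlgebraic_algebraMap (algebraMap ℚ (Algebra.adjoin ℚ X) q)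

theorem cl_zero (X : Set ℝ) : (0 : ℝ) ∈ cl X := by
  simpa using cl_rat X 0

theorem cl_one (X : Set ℝ) : (1 : ℝ) ∈ cl X := by
  simpa using cl_rat X 1

theorem cl_add {X : Set ℝ} {a b : ℝ} (ha : a ∈ cl X) (hb : b ∈ cl X) : a + b ∈ cl X := by
  rw [mem_cl] at *
  exact ha.add hb

theorem cl_neg {X : Set ℝ} {a : ℝ} (ha : a ∈ cl X) : -a ∈ cl X := by
  rw [mem_cl] at *
  exact ha.neg

theorem cl_sub {X : Set ℝ} {a b : ℝ} (ha : a ∈ cl X) (hb : b ∈ cl X) : a - b ∈ cl X := by
  rw [sub_eq_add_neg]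
  exact cl_add ha (cl_neg hb)

theorem cl_mul {X : Set ℝ} {a b : ℝ} (ha : a ∈ cl X) (hb : b ∈ cl X) : a * b ∈ cl X := by
  rw [mem_cl] at *
  exact ha.mul hb

theorem cl_inv {X : Set ℝ} {a : ℝ} (ha : a ∈ cl X) : a⁻¹ ∈ cl X := by
  rw [mem_cl] at *
  exact ha.inv

theorem cl_div {X : Set ℝ} {a b : ℝ} (ha : a ∈ cl X) (hb : b ∈ cl X) : a / b ∈ cl X := by
  rw [div_eq_mul_inv]
  exact cl_mul ha (cl_inv hb)

theorem cl_sum {X : Set ℝ} {ι : Type} (s : Finset ι) (f : ι → ℝ) (h : ∀ i ∈ s, f i ∈ cl X) :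
    ∑ i ∈ s, f i ∈ cl X := by
  classical
  induction s using Finset.induction_on with
  | empty => simpa using cl_zero X
  | insert i s hi ih =>
    rw [Finset.sum_insert hi]
    exact cl_add (h i (Finset.mem_insert_self _ _))
      (ih fun j hj => h j (Finset.mem_insert_of_mem hj))

/-- solving a linear equation -/
theorem cl_solve {X : Set ℝ} {x c d : ℝ} (hc : c ∈ cl X) (hd : d ∈ cl X) (h0 : c ≠ 0)
    (h : x * c + d = 0) : x ∈ cl X := by
  have h1 : x = -d / c := by
    field_simp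
    linarith
  rw [h1]
  exact cl_div (cl_neg hd) hc

/-- complex numbers with real and imaginary part in the closure -/
def CC (X : Set ℝ) (z : ℂ) : Prop := z.re ∈ cl X ∧ z.im ∈ cl X

theorem CC_mono {X Y : Set ℝ} (h : X ⊆ Y) {z : ℂ} (hz : CC X z) : CC Y z :=
  ⟨cl_mono h hz.1, cl_mono h hz.2⟩

theorem CC_zero (X : Set ℝ) : CC X 0 := ⟨by simpa using cl_zero X, by simpa using cl_zero X⟩

theorem CC_add {X : Set ℝ} {z w : ℂ} (hz : CC X z) (hw : CC X w) : CC X (z + w) :=
  ⟨by rw [Complex.add_re]; exact cl_add hz.1 hw.1, by rw [Complex.add_im]; exact cl_add hz.2 hw.2⟩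

theorem CC_mul {X : Set ℝ} {z w : ℂ} (hz : CC X z) (hw : CC X w) : CC X (z * w) :=
  ⟨by rw [Complex.mul_re]; exact cl_sub (cl_mul hz.1 hw.1) (cl_mul hz.2 hw.2),
    by rw [Complex.mul_im]; exact cl_add (cl_mul hz.1 hw.2) (cl_mul hz.2 hw.1)⟩

theorem CC_conj {X : Set ℝ} {z : ℂ} (hz : CC X z) : CC X ((starRingEnd ℂ) z) :=
  ⟨by rw [Complex.conj_re]; exact hz.1, by rw [Complex.conj_im]; exact cl_neg hz.2⟩

theorem CC_sum {X : Set ℝ} {ι : Type} (s : Finset ι) (f : ι → ℂ) (h : ∀ i ∈ s, CC X (f i)) :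
    CC X (∑ i ∈ s, f i) := by
  classical
  induction s using Finset.induction_on with
  | empty => simpa using CC_zero X
  | insert i s hi ih =>
    rw [Finset.sum_insert hi]
    exact CC_add (h i (Finset.mem_insert_self _ _))
      (ih fun j hj => h j (Finset.mem_insert_of_mem hj))

/-- there are arbitrarily large finite families of algebraically independent real numbers -/
theorem exists_indep (ι : Type) [Finite ι] :
    ∃ h : ι → ℝ, Function.Injective h ∧ MA.Indep (Set.range h) := by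
  obtain ⟨s, hs⟩ := exists_isTranscendenceBasis ℚ ℝ
  have hinf : s.Infinite := by
    intro hfin
    have hcount : Countable s := hfin.countable
    by_cases hne : Nonempty s
    · have h1 := hs.lift_cardinalMk_eq_max_lift
      simp only [Cardinal.lift_id, Cardinal.mk_real] at h1
      have h2 : Cardinal.mk s ≤ Cardinal.aleph0 := Cardinal.mk_le_aleph0
      have h3 : Cardinal.mk ℚ ≤ Cardinal.aleph0 := Cardinal.mk_le_aleph0
      have h4 : Cardinal.continuum ≤ Cardinal.aleph0 := by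
        rw [h1]
        exact sup_le (sup_le h3 h2) le_rfl
      exact absurd h4 (not_le.2 Cardinal.aleph0_lt_continuum)
    · have hemp : IsEmpty s := not_nonempty_iff.1 hne
      have h1 : Algebra.IsAlgebraic ℚ ℝ := hs.isEmpty_iff_isAlgebraic.1 hemp
      have h2 := Algebra.IsAlgebraic.cardinalMk_le_max ℚ ℝ
      simp only [Cardinal.mk_real] at h2
      have h3 : Cardinal.mk ℚ ≤ Cardinal.aleph0 := Cardinal.mk_le_aleph0
      have h4 : Cardinal.continuum ≤ Cardinal.aleph0 := h2.trans (max_le h3 le_rfl)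
      exact absurd h4 (not_le.2 Cardinal.aleph0_lt_continuum)
  have hinf' : Infinite s := hinf.to_subtype
  obtain ⟨f⟩ : Nonempty (ι ↪ s) := by
    obtain ⟨m, ⟨e⟩⟩ := Finite.exists_equiv_fin ι
    exact ⟨e.toEmbedding.trans ((Fin.valEmbedding).trans (Infinite.natEmbedding s))⟩
  refine ⟨fun i => f i, fun i j hij => f.injective (Subtype.ext hij), ?_⟩
  have h5 : MA.Indep s := hs.1
  exact h5.subset (by rintro _ ⟨i, rfl⟩; exact (f i).2)

end L1PR
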