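import Pool.Agent.Helper68.L1PR.Upper

/-!
# l1 sparse phase retrieval: lower bounds
-/

set_option autoImplicit false

namespace L1PR

open Set ComplexConjugate

/-- the inner product as a linear map -/
noncomputable def ipL {n : ℕ} (f : Fin n → ℂ) : (Fin n → ℂ) →ₗ[ℂ] ℂ where
  toFun x := ip f x
  map_add' x y := by
    unfold ip
    rw [← Finset.sum_add_distrib]
    refine Finset.sum_congr rfl fun i _ => ?_
    rw [Pi.add_apply, mul_add]
  map_smul' c x := by
    rw [ip_smul]
    rfl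

/-- the embedding of the first `k` coordinates -/
noncomputable def emb (n k : ℕ) : (Fin k → ℂ) →ₗ[ℂ] (Fin n → ℂ) where
  toFun y i := if h : (i : ℕ) < k then y ⟨i, h⟩ else 0
  map_add' x y := by
    funext i
    rw [Pi.add_apply]
    by_cases h : (i : ℕ) < k
    · simp [h]
    · simp [h]
  map_smul' c x := by
    funext i
    rw [Pi.smul_apply]
    by_cases h : (i : ℕ) < k
    · simp [h]
    · simp [h]

theorem emb_apply {n k : ℕ} (y : Fin k → ℂ) (i : Fin n) :
    emb n k y i = if h : (i : ℕ) < k then y ⟨i, h⟩ else 0 := rfl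

theorem emb_sparse {n k : ℕ} (hkn : k ≤ n) (y : Fin k → ℂ) : Sparse k (emb n k y) := by
  unfold Sparse
  have h1 : {i : Fin n | emb n k y i ≠ 0} ⊆ (Fin.castLE hkn) '' (Set.univ : Set (Fin k)) := by
    intro i hi
    have h : (i : ℕ) < k := by
      by_contra h
      apply hi
      rw [emb_apply, dif_neg h]
    exact ⟨⟨i, h⟩, trivial, rfl⟩
  refine (Set.ncard_le_ncard h1 (Set.toFinite _)).trans
    ((Set.ncard_image_le (Set.toFinite _)).trans ?_)
  rw [Set.ncard_univ, Nat.card_eq_fintype_card, Fintype.card_fin]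

theorem emb_inj {n k : ℕ} (hkn : k ≤ n) {y : Fin k → ℂ} (h : emb n k y = 0) : y = 0 := by
  funext i
  have h1 := congrFun h (Fin.castLE hkn i)
  rw [emb_apply, dif_pos (show ((Fin.castLE hkn i : Fin n) : ℕ) < k from i.2)] at h1
  exact h1

theorem frame_card {n N : ℕ} {F : Fin N → (Fin n → ℂ)} (hF : IsFrame F) : n ≤ N := by
  have h1 := finrank_range_le_card (R := ℂ) F
  unfold Set.finrank at h1
  unfold IsFrame at hF
  rw [hF, finrank_top, Fintype.card_fin, Module.finrank_fin_fun] at h1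
  exact h1

theorem ip_add {n : ℕ} (f x y : Fin n → ℂ) : ip f (x + y) = ip f x + ip f y := (ipL f).map_add x y

theorem ip_neg {n : ℕ} (f x : Fin n → ℂ) : ip f (-x) = -ip f x := (ipL f).map_neg x

/-- two signals with the same measurements -/
theorem no_pair {n N k : ℕ} {F : Fin N → (Fin n → ℂ)} (hR : Recovers F k) {u v : Fin n → ℂ}
    (hu : Sparse k u) (hv : Sparse k v) (huv : Feas F u v) : ∃ c : ℂ, ‖c‖ = 1 ∧ v = c • u := by
  have key : ∀ u v : Fin n → ℂ, Sparse k u → Feas F u v → l1 v ≤ l1 u →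
      ∃ c : ℂ, ‖c‖ = 1 ∧ v = c • u := by
    intro u v hu huv hle
    have h1 : IsMinr F u u := (hR u hu u).2 ⟨1, norm_one, (one_smul _ _).symm⟩
    refine (hR u hu v).1 ⟨huv, fun y hy => hle.trans (h1.2 y hy)⟩
  rcases le_total (l1 v) (l1 u) with h | h
  · exact key u v hu huv h
  · obtain ⟨c, hc, hcu⟩ := key v u hv (fun j => (huv j).symm) h
    have hc0 : c ≠ 0 := by
      intro h0
      rw [h0, norm_zero] at hc
      exact zero_ne_one hc
    refine ⟨c⁻¹, by rw [norm_inv, hc, inv_one], ?_⟩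
    rw [hcu, smul_smul, inv_mul_cancel₀ hc0, one_smul]

/-- real independence of two signals with real interference -/
theorem no_real {n N k : ℕ} {F : Fin N → (Fin n → ℂ)} (hR : Recovers F k) {x y : Fin n → ℂ}
    (h1 : Sparse k (x + y)) (h2 : Sparse k (x - y))
    (h : ∀ j, (conj (ip (F j) x) * ip (F j) y).re = 0) (hx : x ≠ 0) :
    ∃ s : ℝ, y = ((s : ℂ) * Complex.I) • x := by
  have hf : Feas F (x + y) (x - y) := by
    intro j
    have h3 := h j
    rw [sub_eq_add_neg, ip_add, ip_add, ip_neg]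
    set p := ip (F j) x
    set q := ip (F j) y
    have h4 : ‖p + -q‖ ^ 2 = ‖p + q‖ ^ 2 := by
      rw [← Complex.normSq_eq_norm_sq, ← Complex.normSq_eq_norm_sq, Complex.normSq_apply,
        Complex.normSq_apply]
      simp only [Complex.mul_re, Complex.conj_re, Complex.conj_im, Complex.add_re, Complex.add_im,
        Complex.neg_re, Complex.neg_im] at h3 ⊢
      linarith
    exact (sq_eq_sq₀ (norm_nonneg _) (norm_nonneg _)).1 h4
  obtain ⟨c, hc, hcu⟩ := no_pair hR h1 h2 hf
  have hcc : c.re * c.re + c.im * c.im = 1 := by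
    rw [← Complex.normSq_apply, Complex.normSq_eq_norm_sq, hc, one_pow]
  have h5 : ∀ i, (1 + c) * y i = (1 - c) * x i := by
    intro i
    have h6 := congrFun hcu i
    rw [Pi.smul_apply, Pi.sub_apply, Pi.add_apply, smul_eq_mul] at h6
    linear_combination -h6
  have h6 : (1 + c) ≠ 0 := by
    intro h7
    apply hx
    funext i
    have h8 := h5 i
    rw [h7, zero_mul] at h8
    have h9 : (1 : ℂ) - c = 2 := by linear_combination -h7
    rw [h9] at h8
    exact (mul_eq_zero.1 h8.symm).resolve_left two_ne_zero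
  have h7 : Complex.normSq (1 + c) ≠ 0 := fun h8 => h6 (Complex.normSq_eq_zero.1 h8)
  have h8 : ((Complex.normSq (1 + c) : ℝ) : ℂ) ≠ 0 := Complex.ofReal_ne_zero.2 h7
  refine ⟨-2 * c.im / Complex.normSq (1 + c), ?_⟩
  funext i
  rw [Pi.smul_apply, smul_eq_mul]
  have h9 : conj (1 + c) * (1 - c) = ((-2 * c.im : ℝ) : ℂ) * Complex.I := by
    apply Complex.ext
    · simp only [Complex.mul_re, Complex.conj_re, Complex.conj_im, Complex.add_re, Complex.add_im,
        Complex.sub_re, Complex.sub_im, Complex.one_re, Complex.one_im, Complex.ofReal_re,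
        Complex.ofReal_im, Complex.I_re, Complex.I_im]
      linarith
    · simp only [Complex.mul_im, Complex.conj_re, Complex.conj_im, Complex.add_re, Complex.add_im,
        Complex.sub_re, Complex.sub_im, Complex.one_re, Complex.one_im, Complex.ofReal_re,
        Complex.ofReal_im, Complex.I_re, Complex.I_im]
      ring
  have h10 : ((Complex.normSq (1 + c) : ℝ) : ℂ) = conj (1 + c) * (1 + c) := by
    rw [mul_comm, Complex.mul_conj]
  apply mul_left_cancel₀ h8
  calc ((Complex.normSq (1 + c) : ℝ) : ℂ) * y i = conj (1 + c) * ((1 + c) * y i) := by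
        rw [h10, mul_assoc]
    _ = conj (1 + c) * (1 - c) * x i := by rw [h5 i, mul_assoc]
    _ = ((Complex.normSq (1 + c) : ℝ) : ℂ) *
        (((-2 * c.im / Complex.normSq (1 + c) : ℝ) : ℂ) * Complex.I * x i) := by
        rw [h9, Complex.ofReal_div]
        field_simp

/-- `3 k - 2` vectors are necessary. -/
theorem lower {n N k : ℕ} {F : Fin N → (Fin n → ℂ)} (hR : Recovers F k) (hk : 1 ≤ k)
    (hkn : k ≤ n) : 3 * k - 2 ≤ N := by
  by_contra hcon
  have hN : N ≤ (k - 1) + (2 * k - 2) := by omega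
  set F' : ℕ → (Fin n → ℂ) := fun j => if h : j < N then F ⟨j, h⟩ else 0 with hF'
  have hFF : ∀ j : Fin N, F' j = F j := by
    intro j
    rw [hF']
    simp only [j.2, dif_pos]
  -- the first signal
  let A : (Fin k → ℂ) →ₗ[ℂ] (Fin (k - 1) → ℂ) :=
    LinearMap.pi fun j => (ipL (F' j)).comp (emb n k)
  have hA : LinearMap.ker A ≠ ⊥ := by
    refine LinearMap.ker_ne_bot_of_finrank_lt ?_
    rw [Module.finrank_fin_fun, Module.finrank_fin_fun]
    omega
  obtain ⟨x, hxA, hx0⟩ := (Submodule.ne_bot_iff _).1 hA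
  have hxA' : ∀ j : Fin (k - 1), ip (F' j) (emb n k x) = 0 := fun j =>
    congrFun (LinearMap.mem_ker.1 hxA) j
  -- the second signal
  let L : (Fin k → ℂ) →ₗ[ℝ] (Fin (2 * k - 2) → ℝ) × ℝ :=
    (LinearMap.pi fun j : Fin (2 * k - 2) => Complex.reLm ∘ₗ
      ((LinearMap.mulLeft ℝ (conj (ip (F' ((k - 1) + j)) (emb n k x)))) ∘ₗ
        (((ipL (F' ((k - 1) + j))).comp (emb n k)).restrictScalars ℝ))).prod
    (Complex.imLm ∘ₗ ((ipL x).restrictScalars ℝ))
  have hL : LinearMap.ker L ≠ ⊥ := by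
    refine LinearMap.ker_ne_bot_of_finrank_lt ?_
    rw [Module.finrank_prod, Module.finrank_fin_fun, finrank_real_of_complex,
      Module.finrank_fin_fun, Module.finrank_self]
    omega
  obtain ⟨y, hyL, hy0⟩ := (Submodule.ne_bot_iff _).1 hL
  have hyL' := LinearMap.mem_ker.1 hyL
  have hy1 : ∀ j : Fin (2 * k - 2), (conj (ip (F' ((k - 1) + j)) (emb n k x)) *
      ip (F' ((k - 1) + j)) (emb n k y)).re = 0 := fun j =>
    congrFun (congrArg Prod.fst hyL') j
  have hy2 : (ip x y).im = 0 := congrArg Prod.snd hyL'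
  have hreal : ∀ j, (conj (ip (F j) (emb n k x)) * ip (F j) (emb n k y)).re = 0 := by
    intro j
    rw [← hFF j]
    by_cases hj : (j : ℕ) < k - 1
    · have h1 := hxA' ⟨j, hj⟩
      rw [show ip (F' j) (emb n k x) = 0 from h1]
      simp
    · have hj' : (j : ℕ) - (k - 1) < 2 * k - 2 := by
        have := j.2
        omega
      have h1 := hy1 ⟨j - (k - 1), hj'⟩
      have h2 : (k - 1) + ((⟨(j : ℕ) - (k - 1), hj'⟩ : Fin (2 * k - 2)) : ℕ) = j := by
        show (k - 1) + ((j : ℕ) - (k - 1)) = j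
        omega
      rw [h2] at h1
      exact h1
  have hx0' : emb n k x ≠ 0 := fun h => hx0 (emb_inj hkn h)
  obtain ⟨s, hs⟩ := no_real hR (x := emb n k x) (y := emb n k y)
    (by rw [← map_add]; exact emb_sparse hkn _) (by rw [← map_sub]; exact emb_sparse hkn _)
    hreal hx0'
  have hs' : y = ((s : ℂ) * Complex.I) • x := by
    rw [← sub_eq_zero]
    apply emb_inj hkn
    rw [map_sub, map_smul, hs, sub_self]
  rw [hs', ip_smul] at hy2
  have h1 : ip x x = ((∑ i, ‖x i‖ ^ 2 : ℝ) : ℂ) := by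
    unfold ip
    rw [Complex.ofReal_sum]
    refine Finset.sum_congr rfl fun i _ => ?_
    rw [mul_comm, Complex.mul_conj, Complex.normSq_eq_norm_sq]
  rw [h1] at hy2
  have h2 : s * ∑ i, ‖x i‖ ^ 2 = 0 := by
    have : ((s : ℂ) * Complex.I * ((∑ i, ‖x i‖ ^ 2 : ℝ) : ℂ)).im = s * ∑ i, ‖x i‖ ^ 2 := by
      simp only [Complex.mul_im, Complex.mul_re, Complex.ofReal_re, Complex.ofReal_im,
        Complex.I_re, Complex.I_im]
      ring
    rw [← this]
    exact hy2
  have h3 : ∑ i, ‖x i‖ ^ 2 ≠ 0 := by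
    intro h3
    apply hx0
    funext i
    have h4 := (Finset.sum_eq_zero_iff_of_nonneg fun i _ => sq_nonneg ‖x i‖).1 h3 i
      (Finset.mem_univ i)
    exact norm_eq_zero.1 (pow_eq_zero_iff (two_ne_zero) |>.1 h4)
  have h4 : s = 0 := (mul_eq_zero.1 h2).resolve_right h3
  apply hy0
  rw [hs', h4]
  simp

end L1PR
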