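import Pool.Agent.Helper68.L1PR.Gen
import Pool.Agent.Helper68.L1PR.Defs

/-!
# l1 sparse phase retrieval: the field generated by a zero-diagonal Hermitian matrix of rank two
-/

set_option autoImplicit false

namespace L1PR

open Set ComplexConjugate

/-- four real numbers with one relation -/
theorem four {B : Set ℝ} {q₁ q₂ u₁ u₂ v₁ v₂ : ℝ} (h1 : q₁ ∈ cl B) (h2 : q₂ ∈ cl B)
    (h0 : q₁ ≠ 0 ∨ q₂ ≠ 0)
    (h : v₁ * (q₁ * u₁ - q₂ * u₂) + v₂ * (q₁ * u₂ + q₂ * u₁) = 0) :
    ∃ c₁ c₂ c₃ : ℝ, ({u₁, u₂, v₁, v₂} : Set ℝ) ⊆ cl (B ∪ {c₁, c₂, c₃}) := by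
  have hq1 : ∀ C : Set ℝ, q₁ ∈ cl (B ∪ C) := fun C => cl_mono subset_union_left h1
  have hq2 : ∀ C : Set ℝ, q₂ ∈ cl (B ∪ C) := fun C => cl_mono subset_union_left h2
  by_cases hA : q₁ * u₁ - q₂ * u₂ = 0
  · by_cases h3 : q₁ = 0
    · have h4 : q₂ ≠ 0 := by
        rcases h0 with h0 | h0
        · exact absurd h3 h0
        · exact h0
      refine ⟨u₁, v₁, v₂, ?_⟩
      have hu1 : u₁ ∈ cl (B ∪ {u₁, v₁, v₂}) := cl_self (Or.inr (by simp))
      have hu2 : u₂ ∈ cl (B ∪ {u₁, v₁, v₂}) :=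
        cl_solve (cl_neg (hq2 _)) (cl_mul (hq1 _) hu1) (neg_ne_zero.2 h4) (by linarith)
      rintro x (rfl | rfl | rfl | rfl)
      · exact hu1
      · exact hu2
      · exact cl_self (Or.inr (by simp))
      · exact cl_self (Or.inr (by simp))
    · refine ⟨u₂, v₁, v₂, ?_⟩
      have hu2 : u₂ ∈ cl (B ∪ {u₂, v₁, v₂}) := cl_self (Or.inr (by simp))
      have hu1 : u₁ ∈ cl (B ∪ {u₂, v₁, v₂}) :=
        cl_solve (hq1 _) (cl_neg (cl_mul (hq2 _) hu2)) h3 (by linarith)
      rintro x (rfl | rfl | rfl | rfl)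
      · exact hu1
      · exact hu2
      · exact cl_self (Or.inr (by simp))
      · exact cl_self (Or.inr (by simp))
  · refine ⟨u₁, u₂, v₂, ?_⟩
    have hu1 : u₁ ∈ cl (B ∪ {u₁, u₂, v₂}) := cl_self (Or.inr (by simp))
    have hu2 : u₂ ∈ cl (B ∪ {u₁, u₂, v₂}) := cl_self (Or.inr (by simp))
    have hv2 : v₂ ∈ cl (B ∪ {u₁, u₂, v₂}) := cl_self (Or.inr (by simp))
    have hv1 : v₁ ∈ cl (B ∪ {u₁, u₂, v₂}) :=
      cl_solve (cl_sub (cl_mul (hq1 _) hu1) (cl_mul (hq2 _) hu2))
        (cl_mul hv2 (cl_add (cl_mul (hq1 _) hu2) (cl_mul (hq2 _) hu1))) hA h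
    rintro x (rfl | rfl | rfl | rfl)
    · exact hu1
    · exact hu2
    · exact hv1
    · exact hv2

/-- the four numbers add at most three to the rank -/
theorem four_rank {B : Set ℝ} {q₁ q₂ u₁ u₂ v₁ v₂ : ℝ} (h1 : q₁ ∈ cl B) (h2 : q₂ ∈ cl B)
    (h0 : q₁ ≠ 0 ∨ q₂ ≠ 0)
    (h : v₁ * (q₁ * u₁ - q₂ * u₂) + v₂ * (q₁ * u₂ + q₂ * u₁) = 0) :
    MA.eRk (B ∪ {u₁, u₂, v₁, v₂}) ≤ MA.eRk B + 3 := by
  obtain ⟨c₁, c₂, c₃, hc⟩ := four h1 h2 h0 h
  have h3 : B ∪ {u₁, u₂, v₁, v₂} ⊆ cl (B ∪ {c₁, c₂, c₃}) :=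
    union_subset (fun x hx => cl_self (Or.inl hx)) hc
  calc MA.eRk (B ∪ {u₁, u₂, v₁, v₂}) ≤ MA.eRk (cl (B ∪ {c₁, c₂, c₃})) := MA.eRk_mono h3
    _ = MA.eRk (B ∪ {c₁, c₂, c₃}) := MA.eRk_closure_eq _
    _ ≤ MA.eRk B + ({c₁, c₂, c₃} : Set ℝ).encard := MA.eRk_union_le_eRk_add_encard _ _
    _ ≤ MA.eRk B + 3 := by
        gcongr
        have e1 : ({c₁, c₂, c₃} : Set ℝ) = ((([c₁, c₂, c₃] : List ℝ).toFinset : Finset ℝ) : Set ℝ) := by
          simp
        rw [e1, Set.encard_coe_eq_coe_finsetCard]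
        have := List.toFinset_card_le ([c₁, c₂, c₃] : List ℝ)
        exact_mod_cast this

/-- The entries of the difference of two rank one matrices with the same diagonal generate, up to
a real factor, a field of transcendence degree at most `3 k - 5`. -/
theorem rank_bound {n k : ℕ} (x y : Fin n → ℂ) (hmod : ∀ i, ‖x i‖ = ‖y i‖) (hx : Sparse k x)
    (hk : 2 ≤ k) {a b : Fin n} (hab : x a * conj (x b) - y a * conj (y b) ≠ 0) :
    ∃ (P : Set ℝ) (t : ℝ), t ≠ 0 ∧ MA.eRk P ≤ ((3 * k - 5 : ℕ) : ℕ∞) ∧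
      ∀ i l, CC P ((x i * conj (x l) - y i * conj (y l)) / (t : ℂ)) := by
  classical
  -- the diagonal vanishes
  have hdiag : ∀ i, x i * conj (x i) - y i * conj (y i) = 0 := by
    intro i
    rw [Complex.mul_conj, Complex.mul_conj, Complex.normSq_eq_norm_sq, Complex.normSq_eq_norm_sq,
      hmod i, sub_self]
  have hy0 : ∀ i, x i = 0 → y i = 0 := by
    intro i hi
    have h := hmod i
    rw [hi, norm_zero] at h
    exact norm_eq_zero.1 h.symm
  have hne : a ≠ b := by
    rintro rfl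
    exact hab (hdiag a)
  have ha0 : x a ≠ 0 := by
    intro h
    apply hab
    rw [h, hy0 a h]
    simp
  have hb0 : x b ≠ 0 := by
    intro h
    apply hab
    rw [h, hy0 b h]
    simp
  -- the real factor
  obtain ⟨t, ht, hq⟩ : ∃ t : ℝ, t ≠ 0 ∧
      (((x a * conj (x b) - y a * conj (y b)) / (t : ℂ)).re = 1 ∨
        ((x a * conj (x b) - y a * conj (y b)) / (t : ℂ)).im = 1) := by
    set q := x a * conj (x b) - y a * conj (y b) with hq
    by_cases h : q.re = 0
    · have h' : q.im ≠ 0 := fun h' => hab (Complex.ext h h')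
      refine ⟨q.im, h', Or.inr ?_⟩
      rw [Complex.div_ofReal_im]
      exact div_self h'
    · refine ⟨q.re, h, Or.inl ?_⟩
      rw [Complex.div_ofReal_re]
      exact div_self h
  have ht' : (t : ℂ) ≠ 0 := Complex.ofReal_ne_zero.2 ht
  set Q : Fin n → Fin n → ℂ := fun i l => (x i * conj (x l) - y i * conj (y l)) / (t : ℂ) with hQ
  have hQd : ∀ i, Q i i = 0 := fun i => by
    rw [hQ]
    simp only [hdiag i, zero_div]
  have hQh : ∀ i l, Q l i = conj (Q i l) := fun i l => by
    simp only [hQ, map_div₀, map_sub, map_mul, Complex.conj_conj, Complex.conj_ofReal]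
    ring
  -- the minor identity
  have hminor : ∀ i l, Q a b * conj (Q a b) * Q i l =
      Q a b * conj (Q l b) * Q i a + conj (Q a b) * conj (Q l a) * Q i b := by
    intro i l
    have h1 : Q a a * (Q b b * Q i l - Q b l * Q i b) - Q a b * (Q b a * Q i l - Q b l * Q i a) +
        Q a l * (Q b a * Q i b - Q b b * Q i a) = 0 := by
      simp only [hQ]
      field_simp
      ring
    rw [hQd a, hQd b, hQh a b, hQh l b, hQh l a] at h1
    linear_combination -h1
  have hqne : Q a b ≠ 0 := div_ne_zero hab ht'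
  set q := Q a b with hqdef
  have hq0 : q.re ≠ 0 ∨ q.im ≠ 0 := by
    rcases hq with h | h
    · exact Or.inl (by rw [show q.re = 1 from h]; exact one_ne_zero)
    · exact Or.inr (by rw [show q.im = 1 from h]; exact one_ne_zero)
  have hrel : ∀ i, (Q i b).re * (q.re * (Q i a).re - q.im * (Q i a).im) +
      (Q i b).im * (q.re * (Q i a).im + q.im * (Q i a).re) = 0 := by
    intro i
    have h1 := hminor i i
    rw [hQd i, mul_zero] at h1
    have h2 := congrArg Complex.re h1
    simp only [Complex.add_re, Complex.mul_re, Complex.mul_im, Complex.conj_re, Complex.conj_im,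
      Complex.zero_re] at h2
    linarith
  set T : Finset (Fin n) := ((Finset.univ.filter fun i => x i ≠ 0).erase a).erase b with hT
  have hTc : T.card + 2 ≤ k := by
    have h1 : (Finset.univ.filter fun i => x i ≠ 0).card ≤ k := by
      have h2 := hx
      unfold Sparse at h2
      have e : {i | x i ≠ 0} = ((Finset.univ.filter fun i => x i ≠ 0 : Finset (Fin n)) :
          Set (Fin n)) := by
        ext i
        simp
      rw [e, Set.ncard_coe_finset] at h2
      exact h2
    have ha : a ∈ Finset.univ.filter fun i => x i ≠ 0 := by simp [ha0]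
    have hb : b ∈ (Finset.univ.filter fun i => x i ≠ 0).erase a := by
      rw [Finset.mem_erase]
      exact ⟨hne.symm, by simp [hb0]⟩
    have h3 := Finset.card_erase_add_one ha
    have h4 : T.card + 1 = _ := Finset.card_erase_add_one hb
    omega
  let R : Finset (Fin n) → Set ℝ := fun T' => {q.re, q.im} ∪
    ⋃ i ∈ T', {(Q i a).re, (Q i a).im, (Q i b).re, (Q i b).im}
  have hR : ∀ T' : Finset (Fin n), MA.eRk (R T') ≤ ((1 + 3 * T'.card : ℕ) : ℕ∞) := by
    intro T'
    induction T' using Finset.induction_on with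
    | empty =>
      have h1 : R ∅ = {q.re, q.im} := by simp [R]
      rw [h1]
      have h2 : ∃ c, ({q.re, q.im} : Set ℝ) ⊆ cl {c} := by
        rcases hq with h | h
        · refine ⟨q.im, ?_⟩
          rintro x (rfl | rfl)
          · rw [show q.re = 1 from h]
            exact cl_one _
          · exact cl_self rfl
        · refine ⟨q.re, ?_⟩
          rintro x (rfl | rfl)
          · exact cl_self rfl
          · rw [show q.im = 1 from h]
            exact cl_one _
      obtain ⟨c, hc⟩ := h2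
      calc MA.eRk {q.re, q.im} ≤ MA.eRk (cl {c}) := MA.eRk_mono hc
        _ = MA.eRk {c} := MA.eRk_closure_eq _
        _ ≤ ({c} : Set ℝ).encard := MA.eRk_le_encard _
        _ ≤ _ := by simp
    | insert i T' hi ih =>
      have h1 : R (insert i T') = R T' ∪
          {(Q i a).re, (Q i a).im, (Q i b).re, (Q i b).im} := by
        simp only [R, Finset.set_biUnion_insert]
        rw [union_assoc, union_comm (⋃ x ∈ T', _)]
      rw [h1, Finset.card_insert_of_notMem hi]
      calc MA.eRk (R T' ∪ {(Q i a).re, (Q i a).im, (Q i b).re, (Q i b).im})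
          ≤ MA.eRk (R T') + 3 := four_rank (cl_self (Or.inl (by simp)))
            (cl_self (Or.inl (by simp))) hq0 (hrel i)
        _ ≤ ((1 + 3 * T'.card : ℕ) : ℕ∞) + 3 := by gcongr
        _ = _ := by
          push_cast
          ring
  refine ⟨R T, t, ht, (hR T).trans ?_, fun i l => ?_⟩
  · exact_mod_cast (show 1 + 3 * T.card ≤ 3 * k - 5 by omega)
  · have hqc : CC (R T) q := ⟨cl_self (Or.inl (by simp)), cl_self (Or.inl (by simp))⟩
    have hmem : ∀ j, x j ≠ 0 → CC (R T) (Q j a) ∧ CC (R T) (Q j b) := by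
      intro j hj
      by_cases hja : j = a
      · subst hja
        rw [hQd j]
        exact ⟨CC_zero _, hqc⟩
      by_cases hjb : j = b
      · subst hjb
        rw [hQd j, hQh a j]
        exact ⟨CC_conj hqc, CC_zero _⟩
      have hjT : j ∈ T := by
        rw [hT, Finset.mem_erase, Finset.mem_erase]
        exact ⟨hjb, hja, by simp [hj]⟩
      have h1 : ∀ c ∈ ({(Q j a).re, (Q j a).im, (Q j b).re, (Q j b).im} : Set ℝ),
          c ∈ cl (R T) := by
        intro c hc
        exact cl_self (Or.inr (mem_biUnion hjT hc))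
      exact ⟨⟨h1 _ (by simp), h1 _ (by simp)⟩, ⟨h1 _ (by simp), h1 _ (by simp)⟩⟩
    show CC (R T) (Q i l)
    by_cases hi : x i = 0
    · have : Q i l = 0 := by
        simp only [hQ, hi, hy0 i hi]
        simp
      rw [this]
      exact CC_zero _
    by_cases hl : x l = 0
    · have : Q i l = 0 := by
        simp only [hQ, hl, hy0 l hl]
        simp
      rw [this]
      exact CC_zero _
    obtain ⟨hi1, hi2⟩ := hmem i hi
    obtain ⟨hl1, hl2⟩ := hmem l hl
    have h1 := hminor i l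
    have h2 : q * conj q = ((Complex.normSq q : ℝ) : ℂ) := Complex.mul_conj q
    have h3 : Complex.normSq q ≠ 0 := fun h => hqne (Complex.normSq_eq_zero.1 h)
    have h4 : Q i l = (((Complex.normSq q)⁻¹ : ℝ) : ℂ) *
        (q * conj (Q l b) * Q i a + conj q * conj (Q l a) * Q i b) := by
      rw [← h1, h2, Complex.ofReal_inv]
      have : ((Complex.normSq q : ℝ) : ℂ) ≠ 0 := Complex.ofReal_ne_zero.2 h3
      field_simp
    rw [h4]
    refine CC_mul ⟨?_, ?_⟩ (CC_add (CC_mul (CC_mul hqc (CC_conj hl2)) hi1)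
      (CC_mul (CC_mul (CC_conj hqc) (CC_conj hl1)) hi2))
    · rw [Complex.ofReal_re, Complex.normSq_apply]
      exact cl_inv (cl_add (cl_mul hqc.1 hqc.1) (cl_mul hqc.2 hqc.2))
    · rw [Complex.ofReal_im]
      exact cl_zero _

end L1PR
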