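import Pool.Agent.Helper68.L1PR.Count
import Pool.Agent.Helper68.L1PR.Rank

/-!
# l1 sparse phase retrieval: the upper bound
-/

set_option autoImplicit false

namespace L1PR

open Set ComplexConjugate

theorem ip_single {n : ℕ} (i : Fin n) (x : Fin n → ℂ) : ip (Pi.single i 1) x = x i := by
  classical
  unfold ip
  rw [Finset.sum_eq_single i]
  · simp
  · intro l _ hl
    rw [Pi.single_eq_of_ne hl]
    simp
  · intro h
    exact absurd (Finset.mem_univ i) h

theorem ip_smul {n : ℕ} (c : ℂ) (f x : Fin n → ℂ) : ip f (c • x) = c * ip f x := by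
  unfold ip
  rw [Finset.mul_sum]
  refine Finset.sum_congr rfl fun i _ => ?_
  rw [Pi.smul_apply, smul_eq_mul]
  ring

theorem normSq_ip {n : ℕ} (z x : Fin n → ℂ) :
    ∑ i, ∑ l, conj (z i) * z l * (x i * conj (x l)) = ((‖ip z x‖ ^ 2 : ℝ) : ℂ) := by
  have h1 : ((‖ip z x‖ ^ 2 : ℝ) : ℂ) = ip z x * conj (ip z x) := by
    rw [Complex.mul_conj, Complex.normSq_eq_norm_sq]
  rw [h1]
  unfold ip
  rw [map_sum, Finset.sum_mul_sum]
  refine Finset.sum_congr rfl fun i _ => Finset.sum_congr rfl fun l _ => ?_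
  rw [map_mul, Complex.conj_conj]
  ring

theorem feas_smul {n N : ℕ} (F : Fin N → (Fin n → ℂ)) (x₀ : Fin n → ℂ) {c : ℂ} (hc : ‖c‖ = 1) :
    Feas F x₀ (c • x₀) := by
  intro j
  rw [ip_smul, norm_mul, hc, one_mul]

theorem l1_smul {n : ℕ} (x : Fin n → ℂ) {c : ℂ} (hc : ‖c‖ = 1) : l1 (c • x) = l1 x := by
  unfold l1
  refine Finset.sum_congr rfl fun i _ => ?_
  rw [Pi.smul_apply, smul_eq_mul, norm_mul, hc, one_mul]

/-- frames which contain the standard basis -/
theorem recovers_of {n N k : ℕ} (F : Fin N → (Fin n → ℂ))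
    (hb : ∀ i, ∃ j, F j = Pi.single i 1)
    (hinj : ∀ x₀, Sparse k x₀ → ∀ x, Feas F x₀ x → (∀ i, ‖x i‖ = ‖x₀ i‖) →
      ∃ c : ℂ, ‖c‖ = 1 ∧ x = c • x₀) : IsFrame F ∧ Recovers F k := by
  constructor
  · unfold IsFrame
    have h1 : Submodule.span ℂ (range (Pi.basisFun ℂ (Fin n))) ≤ Submodule.span ℂ (range F) := by
      rw [Submodule.span_le]
      rintro _ ⟨i, rfl⟩
      obtain ⟨j, hj⟩ := hb i
      rw [Pi.basisFun_apply, ← hj]
      exact Submodule.subset_span ⟨j, rfl⟩
    rw [(Pi.basisFun ℂ (Fin n)).span_eq] at h1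
    exact top_le_iff.1 h1
  · intro x₀ hx₀ x
    have hmod : ∀ y, Feas F x₀ y → ∀ i, ‖y i‖ = ‖x₀ i‖ := by
      intro y hy i
      obtain ⟨j, hj⟩ := hb i
      have h := hy j
      rw [hj, ip_single, ip_single] at h
      exact h
    have hl1 : ∀ y, Feas F x₀ y → l1 y = l1 x₀ := fun y hy =>
      Finset.sum_congr rfl fun i _ => hmod y hy i
    constructor
    · rintro ⟨hf, -⟩
      exact hinj x₀ hx₀ x hf (hmod x hf)
    · rintro ⟨c, hc, rfl⟩
      refine ⟨feas_smul F x₀ hc, fun y hy => ?_⟩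
      rw [l1_smul x₀ hc, hl1 y hy]

theorem phase_of {n : ℕ} (x₀ x : Fin n → ℂ) (hmod : ∀ i, ‖x i‖ = ‖x₀ i‖)
    (h : ∀ i l, x₀ i * conj (x₀ l) = x i * conj (x l)) : ∃ c : ℂ, ‖c‖ = 1 ∧ x = c • x₀ := by
  by_cases h0 : ∃ i, x₀ i ≠ 0
  · obtain ⟨a, ha⟩ := h0
    have hxa : x a ≠ 0 := by
      intro h1
      have h2 := hmod a
      rw [h1, norm_zero] at h2
      exact ha (norm_eq_zero.1 h2.symm)
    have hna : ‖x₀ a‖ ≠ 0 := norm_ne_zero_iff.2 ha
    refine ⟨x a / x₀ a, ?_, ?_⟩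
    · rw [norm_div, hmod a, div_self hna]
    · funext i
      rw [Pi.smul_apply, smul_eq_mul]
      have h1 := h i a
      have h2 : x a * conj (x a) = x₀ a * conj (x₀ a) := (h a a).symm
      have h3 : conj (x a) ≠ 0 := by
        intro h4
        exact hxa ((map_eq_zero _).1 h4)
      field_simp
      apply mul_right_cancel₀ h3
      linear_combination (-x₀ a) * h1 + (-x₀ i) * h2
  · push Not at h0
    refine ⟨1, norm_one, ?_⟩
    funext i
    have h1 := hmod i
    rw [h0 i, norm_zero] at h1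
    rw [Pi.smul_apply, h0 i, norm_eq_zero.1 h1, smul_zero]

/-- `n + 3 k - 4` vectors suffice. -/
theorem upper {n k : ℕ} (hk : 2 ≤ k) :
    ∃ F : Fin (n + (3 * k - 4)) → (Fin n → ℂ), IsFrame F ∧ Recovers F k := by
  classical
  obtain ⟨g, hginj, hg⟩ := exists_indep (Fin (3 * k - 4) × (Fin n × Bool))
  set h : Fin (3 * k - 4) → (Fin n → ℂ) := fun j i => ⟨g (j, (i, false)), g (j, (i, true))⟩ with hh
  refine ⟨Fin.append (fun i : Fin n => (Pi.single i 1 : Fin n → ℂ)) h, ?_⟩
  refine recovers_of _ (fun i => ⟨Fin.castAdd _ i, by rw [Fin.append_left]⟩) ?_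
  intro x₀ hx₀ x hf hmod
  refine phase_of x₀ x hmod ?_
  by_contra hcon
  push Not at hcon
  obtain ⟨a, b, hab⟩ := hcon
  have hab' : x₀ a * conj (x₀ b) - x a * conj (x b) ≠ 0 := sub_ne_zero.2 hab
  obtain ⟨P, t, ht, hP, hC⟩ := rank_bound x₀ x (fun i => (hmod i).symm) hx₀ hk hab'
  have ht' : (t : ℂ) ≠ 0 := Complex.ofReal_ne_zero.2 ht
  have h1 : ((3 * k - 4 : ℕ) : ℕ∞) ≤ MA.eRk P := by
    refine count P (fun i l => (x₀ i * conj (x₀ l) - x i * conj (x l)) / (t : ℂ)) hC ?_ ?_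
      (a := a) (b := b) (div_ne_zero hab' ht') g hginj hg ?_
    · intro i
      have : x₀ i * conj (x₀ i) - x i * conj (x i) = 0 := by
        rw [Complex.mul_conj, Complex.mul_conj, Complex.normSq_eq_norm_sq,
          Complex.normSq_eq_norm_sq, hmod i, sub_self]
      rw [this, zero_div]
    · intro i l
      simp only [map_div₀, map_sub, map_mul, Complex.conj_conj, Complex.conj_ofReal]
      ring
    · intro j
      have h2 := hf (Fin.natAdd n j)
      rw [Fin.append_right] at h2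
      have h3 := normSq_ip (h j) x₀
      have h4 := normSq_ip (h j) x
      rw [h2] at h4
      have h5 : ∑ i, ∑ l, conj (h j i) * h j l *
          ((x₀ i * conj (x₀ l) - x i * conj (x l)) / (t : ℂ)) =
          (∑ i, ∑ l, conj (h j i) * h j l * (x₀ i * conj (x₀ l)) -
            ∑ i, ∑ l, conj (h j i) * h j l * (x i * conj (x l))) / (t : ℂ) := by
        rw [← Finset.sum_sub_distrib, Finset.sum_div]
        refine Finset.sum_congr rfl fun i _ => ?_
        rw [← Finset.sum_sub_distrib, Finset.sum_div]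
        refine Finset.sum_congr rfl fun l _ => ?_
        ring
      rw [h3, h4, sub_self, zero_div] at h5
      exact h5
  have h2 := h1.trans hP
  have h3 : 3 * k - 4 ≤ 3 * k - 5 := by exact_mod_cast h2
  omega

/-- `n` vectors suffice for one-sparse signals -/
theorem upper_one {n : ℕ} : ∃ F : Fin n → (Fin n → ℂ), IsFrame F ∧ Recovers F 1 := by
  classical
  refine ⟨fun i => Pi.single i 1, recovers_of _ (fun i => ⟨i, rfl⟩) ?_⟩
  intro x₀ hx₀ x hf hmod
  refine phase_of x₀ x hmod ?_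
  intro i l
  by_cases hil : i = l
  · subst hil
    rw [Complex.mul_conj, Complex.mul_conj, Complex.normSq_eq_norm_sq,
      Complex.normSq_eq_norm_sq, hmod i]
  · have h0 : x₀ i = 0 ∨ x₀ l = 0 := by
      by_contra hcon
      push Not at hcon
      unfold Sparse at hx₀
      exact hil ((Set.ncard_le_one_iff (Set.toFinite _)).1 hx₀ hcon.1 hcon.2)
    rcases h0 with h0 | h0
    · have h1 := hmod i
      rw [h0, norm_zero] at h1
      rw [h0, norm_eq_zero.1 h1]
      simp
    · have h1 := hmod l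
      rw [h0, norm_zero] at h1
      rw [h0, norm_eq_zero.1 h1]
      simp

end L1PR
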